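import Pool.Agent.T2H06.DYL.GeoL
import Pool.Agent.T2H06.DYN.Main
import Pool.Agent.R887.Kap
import Pool.Agent.R887.Nef

/-!
The numerical dimension and the Iitaka dimension of a divisor.
-/

set_option autoImplicit false
set_option linter.overlappingInstances false
set_option linter.unusedSectionVars false
set_option linter.unusedVariables false

open Filter Topology FF MvPolynomial Pool.Agent.W602.GT Pool.Agent.W603.LV Pool.Agent.W619.PQ
open Pool.Agent.Y172 Pool.Agent.Y191 Pool.Agent.R887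
open Pool.Agent.T2H06.DYN (MM MM_dom MM_dom_rep MM_four Dom VH VH_fg mem_VH pen_VH exists_ord_le
  fg_of_bound dominate' centred_of_through degreeOver_md le_MM sel_rep Sel Pen)
open Pool.Agent.T2H06.DYR (im mem_im im_fg im_im im_one MM_map exists_under dom_map dom_trans OrdF gam
  exists_pole exists_up' exists_dn deg_pos VH_ord)

namespace Pool.Agent.T2H06.DYL

section

variable {K : Type} [Field K] [Algebra ℂ K] {N n : ℕ} {y : Fin (N + 1) → K}

/-- large intersection numbers, if the numerical dimension is at least `j` -/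
theorem not_numLt (hy : NormalModel y) (hn : Algebra.trdeg ℂ K = n) {D : Place ℂ K → ℚ}
    (hD : IsDivisor y D) {i : Fin (N + 1)} (hi : y i ≠ 0) {A : Place ℂ K → ℚ} (hA : Effective y A)
    (hAP : ∀ P l, IsPrimeDivisor y P → Centred y l P → A P = P.ord (y i / y l)) {j : ℕ}
    (hj : j ≤ n) (h : ¬ NumLt y n D j) :
    ∃ ε : ℝ, 0 < ε ∧ ∀ k : ℕ, ∃ m ν : ℕ, 1 ≤ m ∧ ν * (k + 1) ≤ m ∧
      ε * (m : ℝ) ^ j ≤ MM (Multiset.replicate j (VF y (m • D + ν • A)) +
        Multiset.replicate (n - j) (VH y)) := by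
  unfold NumLt at h
  push Not at h
  obtain ⟨A', hA', ε, hε, h⟩ := h
  obtain ⟨f, s, hf0, hfs⟩ := dominate' hy hA' hi hA hAP
  refine ⟨ε, hε, fun k => ?_⟩
  obtain ⟨m, b, hm, hb, u, hu, ω, hω, h0, hdeg⟩ := h (1 / (((s + 1 : ℕ) : ℝ) * ((k + 1 : ℕ) : ℝ)))
    (by positivity) 1
  have hbs : b * s * (k + 1) ≤ m := by
    have h1 : (b : ℝ) * (((s + 1 : ℕ) : ℝ) * ((k + 1 : ℕ) : ℝ)) ≤ m := by
      have h2 : (0 : ℝ) < ((s + 1 : ℕ) : ℝ) * ((k + 1 : ℕ) : ℝ) := by positivity
      have h3 := mul_le_mul_of_nonneg_right hb h2.le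
      have h4 : 1 / (((s + 1 : ℕ) : ℝ) * ((k + 1 : ℕ) : ℝ)) * m *
          (((s + 1 : ℕ) : ℝ) * ((k + 1 : ℕ) : ℝ)) = m := by field_simp
      linarith
    have h2 : b * ((s + 1) * (k + 1)) ≤ m := by exact_mod_cast h1
    refine le_trans ?_ h2
    rw [mul_assoc]
    exact Nat.mul_le_mul_left _ (Nat.mul_le_mul_right _ (by omega))
  refine ⟨m, b * s, hm, hbs, hdeg.le.trans ?_⟩
  have hsec : ∀ a, f ^ b * ω a ∈ VF y (m • D + (b * s) • A) := by
    intro a P hP
    rcases hω a P hP with h2 | h2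
    · left
      rw [h2, mul_zero]
    by_cases h3 : ω a = 0
    · left
      rw [h3, mul_zero]
    right
    rw [P.ord_mul (pow_ne_zero _ hf0) h3, P.ord_pow]
    rw [Pi.add_apply, Pi.smul_apply, Pi.smul_apply, nsmul_eq_mul, nsmul_eq_mul] at h2
    rw [Pi.add_apply, Pi.smul_apply, Pi.smul_apply, nsmul_eq_mul, nsmul_eq_mul]
    have h4 := mul_le_mul_of_nonneg_left (hfs P hP) (show (0 : ℚ) ≤ b from Nat.cast_nonneg b)
    push_cast
    nlinarith
  have hfb : f ^ b ≠ 0 := pow_ne_zero _ hf0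
  have hne : f ^ b * ω 0 ≠ 0 := mul_ne_zero hfb h0
  have hpen : ∀ a : Fin j, Pen (VF y (m • D + (b * s) • A)) (ω a.succ / ω 0) := fun a =>
    ⟨_, hsec a.succ, _, hsec 0, hne, by rw [mul_div_mul_left _ _ hfb]⟩
  have hcard : Algebra.trdeg ℂ K = (Multiset.replicate j (VF y (m • D + (b * s) • A)) +
      Multiset.replicate (n - j) (VH y)).card := by
    rw [Multiset.card_add, Multiset.card_replicate, Multiset.card_replicate, hn]
    congr 1
    omega
  have hfg : ∀ U ∈ Multiset.replicate j (VF y (m • D + (b * s) • A)) +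
      Multiset.replicate (n - j) (VH y), U.FG := by
    intro U hU
    rcases Multiset.mem_add.1 hU with h1 | h1
    · rw [Multiset.eq_of_mem_replicate h1]
      exact VF_fg hy hn hD hi hA hAP m _
    · rw [Multiset.eq_of_mem_replicate h1]
      exact VH_fg
  have hdg : degreeOver u (fun a : Fin j => ω a.succ / ω 0) ≤
      MM (Multiset.replicate j (VF y (m • D + (b * s) • A)) +
        Multiset.replicate (n - j) (VH y)) := by
    rw [degreeOver_md]
    exact le_MM hcard hfg (Multiset.Rel.add (sel_rep hpen) (sel_rep fun a => pen_VH.2 (hu a)))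
  exact_mod_cast hdg

/-- positivity, if the numerical dimension is at least `j` -/
theorem GT_pos_of (hy : NormalModel y) (hn : Algebra.trdeg ℂ K = n) {D : Place ℂ K → ℚ}
    (hD : IsDivisor y D) {φ : K →ₐ[ℂ] K} {i : Fin (N + 1)}
    (hi : y i ≠ 0) {A : Place ℂ K → ℚ} (hA : Effective y A)
    (hAP : ∀ P l, IsPrimeDivisor y P → Centred y l P → A P = P.ord (y i / y l)) {a : ℕ → ℕ}
    {M β C lam : ℕ}
    (hF : FamL n φ (VH y) (fun q => VF y ((a q * q) • D + a q • A)) a M β C lam)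
    (hdom : ∀ m b q : ℕ, 1 ≤ q → b * q ≤ m →
        Dom n (VF y (m • D + b • A)) (VF y ((a q * q) • D + a q • A)) (a q * q) m 1)
    {j : ℕ} (hj : j ≤ n) (hnd : ¬ NumLt y n D j) :
    0 < GT φ (VH y) (fun q => VF y ((a q * q) • D + a q • A)) a 0 j
      (Multiset.replicate (n - j) 0) := by
  have hess := hy.ess
  obtain ⟨ε, hε, hlow⟩ := not_numLt hy hn hD hi hA hAP hj hnd
  refine lt_of_lt_of_le hε ?_
  refine ge_of_tendsto (GT_tendsto hF 0 (i := j) (s := Multiset.replicate (n - j) 0) (by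
    rw [Multiset.card_replicate]; omega)) ?_
  filter_upwards [eventually_ge_atTop 1] with q hq
  obtain ⟨m, ν, hm, hν, hle⟩ := hlow q
  have hνm : ν * q ≤ m := (Nat.mul_le_mul_left ν (Nat.le_succ _)).trans hν
  have hR : ∀ U ∈ Multiset.replicate (n - j) (VH y), U.FG := fun U hU => by
    rw [Multiset.eq_of_mem_replicate hU]
    exact VH_fg
  have h1 := MM_dom_rep hn (VF_fg hy hn hD hi hA hAP m ν) (V_fg hF hq) (hdom m ν q hq hνm) j
    (R := Multiset.replicate (n - j) (VH y)) (by rw [Multiset.card_replicate]; omega) hR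
  have e2 : NN φ (VH y) (fun q => VF y ((a q * q) • D + a q • A)) 0 j q
      (Multiset.replicate (n - j) 0) = MM (Multiset.replicate j
        (VF y ((a q * q) • D + a q • A)) + Multiset.replicate (n - j) (VH y)) := by
    unfold NN UT
    rw [Multiset.map_replicate, AA_zero, pow_zero, im_one]
  rw [← e2] at h1
  unfold QQ
  have ha1 : (0 : ℝ) < a q := by exact_mod_cast a_pos hF hq
  have hq0 : (0 : ℝ) < q := by exact_mod_cast hq
  have hm0 : (0 : ℝ) < m := by exact_mod_cast hm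
  have h2 : ((a q : ℝ) * q) ^ j * (MM (Multiset.replicate j (VF y (m • D + ν • A)) +
      Multiset.replicate (n - j) (VH y)) : ℝ) ≤ (m : ℝ) ^ j *
      (NN φ (VH y) (fun q => VF y ((a q * q) • D + a q • A)) 0 j q
        (Multiset.replicate (n - j) 0) : ℝ) := by exact_mod_cast h1
  obtain ⟨X, hX⟩ : ∃ X : ℝ, X = NN φ (VH y) (fun q => VF y ((a q * q) • D + a q • A)) 0 j q
        (Multiset.replicate (n - j) 0) := ⟨_, rfl⟩
  obtain ⟨Z, hZ⟩ : ∃ Z : ℝ, Z = MM (Multiset.replicate j (VF y (m • D + ν • A)) +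
      Multiset.replicate (n - j) (VH y)) := ⟨_, rfl⟩
  rw [← hX, ← hZ] at h2
  rw [← hZ] at hle
  rw [← hX, le_div_iff₀ (by positivity)]
  have h3 : ((a q : ℝ) * q) ^ j * (ε * (m : ℝ) ^ j) ≤ (m : ℝ) ^ j * X :=
    (mul_le_mul_of_nonneg_left hle (by positivity)).trans h2
  have hmj : (0 : ℝ) < (m : ℝ) ^ j := by positivity
  refine le_of_mul_le_mul_left ?_ hmj
  refine le_trans (le_of_eq ?_) h3
  ring

/-- **The Iitaka dimension is at most the numerical dimension.** -/
theorem iitaka_lt (hy : NormalModel y) (hn : Algebra.trdeg ℂ K = n) {D : Place ℂ K → ℚ} {j : ℕ}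
    (hj : j ≤ n) (hnum : NumLt y n D j) : ¬ IitakaGe y D j := by
  classical
  rintro ⟨m, hm, ω, hω, h0, hind⟩
  obtain ⟨g, hg⟩ : ∃ g : Fin j → K, g = fun i => ω i.succ / ω 0 := ⟨_, rfl⟩
  rw [← hg] at hind
  obtain ⟨u, hu, hd⟩ := exists_complete hy hn hj hind
  have hzero : Effective y (0 : Place ℂ K → ℚ) :=
    ⟨fun _ _ => le_rfl, Set.finite_empty.subset (by rintro P ⟨-, h⟩; exact h rfl)⟩
  have hm' : (0 : ℝ) < m := by exact_mod_cast hm
  obtain ⟨t, ht, m0, h⟩ := hnum 0 hzero (1 / (2 * m ^ j)) (by positivity)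
  obtain ⟨q, hq⟩ : ∃ q, q = m0 + 1 := ⟨_, rfl⟩
  have h1 := h (q * m) 0 (by nlinarith) (by
      push_cast
      positivity) u hu (fun i => ω i ^ q) (fun i => by
      have h2 := (hω i).pow q
      rw [smul_smul] at h2
      rw [zero_smul, add_zero]
      exact h2) (pow_ne_zero _ h0)
  have hcard : Nat.card (Fin (n - j) ⊕ Fin j) = n := by
    rw [Nat.card_eq_fintype_card, Fintype.card_sum, Fintype.card_fin, Fintype.card_fin]
    omega
  have h2 := dg_pow_all (k := ℂ) (by rw [hn, hcard]) (Sum.elim u g) (Finset.univ.image Sum.inr)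
    (q := q) (by omega) hd.ne'
  rw [Finset.card_image_of_injective _ Sum.inr_injective, Finset.card_univ,
    Fintype.card_fin] at h2
  have h3' : (Sum.elim u fun i : Fin j => ω i.succ ^ q / ω 0 ^ q) =
      fun i => if i ∈ Finset.univ.image Sum.inr then Sum.elim u g i ^ q
        else Sum.elim u g i := by
    funext i
    rcases i with i | i
    · simp
    · simp [hg, div_pow]
  have h3 : degreeOver u (fun i : Fin j => ω i.succ ^ q / ω 0 ^ q) =
      dg ℂ (fun i => if i ∈ Finset.univ.image Sum.inr then Sum.elim u g i ^ q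
        else Sum.elim u g i) := by
    rw [← h3']
    unfold degreeOver dg
    rw [Set.Sum.elim_range]
  change ((degreeOver u (fun i : Fin j => ω i.succ ^ q / ω 0 ^ q) : ℕ) : ℝ) ≤ _ at h1
  rw [h3, h2] at h1
  push_cast at h1
  have hq' : (0 : ℝ) < q := by
    rw [hq]
    positivity
  have hd' : (1 : ℝ) ≤ dg ℂ (Sum.elim u g) := by exact_mod_cast hd
  have h4 : 1 / (2 * (m : ℝ) ^ j) * (q * m) ^ j = q ^ j / 2 := by
    rw [mul_pow]
    field_simp
  rw [h4] at h1
  have h5 : (0 : ℝ) < (q : ℝ) ^ j := by positivity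
  nlinarith

/-- the sections of the multiples of a numerically trivial nef divisor have no zeros -/
theorem nef_trivial (hy : NormalModel y) (hn : Algebra.trdeg ℂ K = n) (hn0 : 0 < n)
    {D : Place ℂ K → ℚ} (hnum : NumLt y n D 1) (hnef : Nef y n D) {m0 : ℕ} (hm0 : 1 ≤ m0)
    {η : K} (hη : IsSec y (m0 • D) η) (hη0 : η ≠ 0) :
    ∀ P, IsPrimeDivisor y P → (P.ord η : ℚ) = -(m0 * D P) := by
  classical
  have hess := hy.ess
  intro P1 hP1
  have hge := (hη P1 hP1).resolve_left hη0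
  rw [Pi.smul_apply, nsmul_eq_mul] at hge
  by_contra hne
  obtain ⟨c, hc⟩ : ∃ c : ℚ, c = P1.ord η + m0 * D P1 := ⟨_, rfl⟩
  have hc0 : 0 < c := by
    rcases hge.lt_or_eq with h1 | h1
    · rw [hc]; linarith
    · exact absurd h1.symm hne
  obtain ⟨i, hi⟩ := hy.ne
  obtain ⟨A, hA, hAP⟩ := exists_hyp hy hi
  obtain ⟨u, hup, hui⟩ := exists_pencils (n := n) hy.ne (Set.finite_singleton P1)
    (fun P hP => by rw [Set.mem_singleton_iff.1 hP]; exact hP1)
    (fun P hP => by rw [Set.mem_singleton_iff.1 hP]; exact hP1.divisorial hy hn)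
  have hm0r : (1 : ℝ) ≤ m0 := by exact_mod_cast hm0
  have hcr : (0 : ℝ) < (c : ℝ) := by exact_mod_cast hc0
  obtain ⟨t, ht, m1, hm1⟩ := hnum A hA (c / (2 * m0)) (by positivity)
  obtain ⟨q, hq⟩ : ∃ q, q = ⌈1 / t⌉₊ + 1 := ⟨_, rfl⟩
  have hqt : 1 ≤ t * q := by
    have h1 : 1 / t ≤ q := by
      rw [hq]
      push_cast
      have := Nat.le_ceil (1 / t)
      linarith
    rw [div_le_iff₀ ht] at h1
    linarith
  obtain ⟨m, hm, hgen⟩ := hnef i hi q (by omega)
  obtain ⟨ω, hω0, hω, hωg⟩ := hgen P1 (hP1.divisorial hy hn)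
  obtain ⟨l, hl⟩ := exists_centred hy P1
  have hordω := hωg P1 l hP1 (fun f hf => localRing_reg hf) hl
  rw [← hAP P1 l hP1 hl] at hordω
  obtain ⟨k, hk⟩ : ∃ k, k = m1 + 1 := ⟨_, rfl⟩
  obtain ⟨M, hM⟩ : ∃ M, M = m0 * (m * q * k) := ⟨_, rfl⟩
  obtain ⟨b, hb⟩ : ∃ b, b = m * (m0 * k) := ⟨_, rfl⟩
  have hs1 : IsSec y (M • D + b • A) (η ^ (m * q * k)) := by
    have h1 := hη.pow (m * q * k)
    rw [smul_smul, Nat.mul_comm, ← hM] at h1
    intro P hP
    rcases h1 P hP with h2 | h2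
    · exact Or.inl h2
    right
    have h3 := hA.1 P hP
    rw [Pi.add_apply, Pi.smul_apply, Pi.smul_apply, nsmul_eq_mul, nsmul_eq_mul]
    rw [Pi.smul_apply, nsmul_eq_mul] at h2
    have h4 := mul_nonneg (show (0 : ℚ) ≤ b from Nat.cast_nonneg b) h3
    linarith
  have hs0 : IsSec y (M • D + b • A) (ω ^ (m0 * k)) := by
    have h0 : IsSec y ((m * q) • D + m • A) ω := by
      intro P hP
      right
      obtain ⟨l', hl'⟩ := exists_centred hy P
      have h2 := hω P l' hP hl'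
      rw [← hAP P l' hP hl'] at h2
      rw [Pi.add_apply, Pi.smul_apply, Pi.smul_apply, nsmul_eq_mul, nsmul_eq_mul]
      refine le_trans (le_of_eq ?_) h2
      push_cast
      ring
    have h1 := h0.pow (m0 * k)
    rw [smul_add, smul_smul, smul_smul] at h1
    have h2 : m0 * k * (m * q) = M := by rw [hM]; ring
    have h3 : m0 * k * m = b := by rw [hb]; ring
    rwa [h2, h3] at h1
  have h1 := hm1 M b (by
      have h2 : 1 ≤ m0 * (m * q) := Nat.mul_pos hm0 (Nat.mul_pos hm (by omega))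
      have h3 : M = m0 * (m * q) * k := by rw [hM]; ring
      rw [h3, hk]
      nlinarith) (by
      rw [hM, hb]
      push_cast
      have h2 : (0 : ℝ) ≤ m * (m0 * k) := by positivity
      nlinarith) u hup
    ![η ^ (m * q * k), ω ^ (m0 * k)] (by
      intro a
      fin_cases a
      · exact hs1
      · exact hs0) (by
      change η ^ (m * q * k) ≠ 0
      exact pow_ne_zero _ hη0)
  obtain ⟨g, hg⟩ : ∃ g, g = ω ^ (m0 * k) / η ^ (m * q * k) := ⟨_, rfl⟩
  have h2 : (fun a : Fin 1 => (![η ^ (m * q * k), ω ^ (m0 * k)] : Fin 2 → K) a.succ /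
      (![η ^ (m * q * k), ω ^ (m0 * k)] : Fin 2 → K) 0) = fun _ => g := by
    funext a
    fin_cases a
    exact hg.symm
  rw [h2] at h1
  have hordg : P1.ord g = (m0 * k : ℕ) * P1.ord ω - (m * q * k : ℕ) * P1.ord η := by
    rw [hg, P1.ord_div (pow_ne_zero _ hω0) (pow_ne_zero _ hη0), P1.ord_pow, P1.ord_pow]
  have hmq : (1 : ℚ) ≤ m * q * k := by
    have h3 : 1 ≤ m * q * k := Nat.mul_pos (Nat.mul_pos hm (by omega)) (by omega)
    exact_mod_cast h3
  have hA0 := hA.1 P1 hP1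
  have hle : (P1.ord g : ℚ) ≤ -(m * q * k * c) := by
    rw [hordg]
    push_cast
    rw [hordω, hc]
    have e5 : (0 : ℚ) ≤ m0 * k * (m * A P1) := by positivity
    nlinarith
  have hneg : P1.ord g < 0 := by
    have : (P1.ord g : ℚ) < 0 := by
      have h4 : (0 : ℚ) < m * q * k * c := by positivity
      linarith
    exact_mod_cast this
  have h3 := deg_ge hn hn0 (hui P1 (Set.mem_singleton P1)) hneg
  have h4 : (-(P1.ord g : ℚ) : ℝ) ≤ degreeOver u (fun _ : Fin 1 => g) := by exact_mod_cast h3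
  have h5 : ((m * q * k * c : ℚ) : ℝ) ≤ ((-(P1.ord g : ℚ) : ℚ) : ℝ) := by
    have : (m * q * k * c : ℚ) ≤ -(P1.ord g : ℚ) := by linarith
    exact_mod_cast this
  have h6 : (c : ℝ) / (2 * m0) * M ^ 1 = m * q * k * c / 2 := by
    rw [hM]
    push_cast
    field_simp
  rw [h6] at h1
  have h7 : (0 : ℝ) < m * q * k * c := by
    have h8 : (0 : ℚ) < m * q * k * c := by positivity
    exact_mod_cast h8
  push_cast at h4 h5
  linarith

end

end Pool.Agent.T2H06.DYL
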