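import Pool.Agent.T2H06.DYL.PosL
import Pool.Agent.T2H06.DYR.Main

/-!
**The numerical dimension of a nef divisor and the dynamical degrees of a dominant rational self-map
which multiplies its class by `lam`.**
-/

set_option autoImplicit false
set_option linter.overlappingInstances false
set_option linter.unusedSectionVars false
set_option linter.unusedVariables false

open Filter Topology FF Module MvPolynomial Pool.Agent.W602.GT Pool.Agent.W603.LV Pool.Agent.W619.PQ
open Pool.Agent.Y172 Pool.Agent.Y191 Pool.Agent.R887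
open Pool.Agent.T2H06.DYN (MM MM_dom MM_dom_rep MM_four Dom VH VH_fg mem_VH pen_VH exists_ord_le
  fg_of_bound dominate' centred_of_through degreeOver_md le_MM exists_MM sel_fin sel_add sel_rep Sel
  Pen tendsto_root)
open Pool.Agent.T2H06.DYR (im mem_im im_fg im_im im_one MM_map exists_under dom_map dom_trans OrdF gam
  exists_pole exists_up' exists_dn deg_pos VH_ord iterDegrees DynDegree pen_im)

namespace Pool.Agent.T2H06.DYL

section

variable {K : Type} [Field K] [Algebra ℂ K] {N : ℕ} {y : Fin (N + 1) → K} {n : ℕ}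

/-- the degrees of the iterates are intersection numbers -/
theorem isGreatest_iter [Algebra.EssFiniteType ℂ K] (hn : Algebra.trdeg ℂ K = n)
    {φ : K →ₐ[ℂ] K} {V : ℕ → Submodule ℂ K} {a : ℕ → ℕ}
    {M β C lam : ℕ} (hF : FamL n φ (VH y) V a M β C lam) {p : ℕ} (hp : p ≤ n) (m : ℕ)
    (hpos : 0 < MM ((Multiset.replicate p m + Multiset.replicate (n - p) 0).map (AA φ (VH y)))) :
    IsGreatest (iterDegrees y n φ p m)
      (MM ((Multiset.replicate p m + Multiset.replicate (n - p) 0).map (AA φ (VH y)))) := by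
  have htri : (Multiset.replicate p m + Multiset.replicate (n - p) 0).map (AA φ (VH y)) =
      Multiset.replicate p (im (φ ^ m) (VH y)) + Multiset.replicate (n - p) (VH y) := by
    rw [Multiset.map_add, Multiset.map_replicate, Multiset.map_replicate, AA_zero]
    rfl
  have hcard : Algebra.trdeg ℂ K =
      ((Multiset.replicate p m + Multiset.replicate (n - p) 0).map (AA φ (VH y))).card := by
    rw [Multiset.card_map, Multiset.card_add, Multiset.card_replicate, Multiset.card_replicate, hn]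
    congr 1
    omega
  have hfg := map_AA_fg hF (Multiset.replicate p m + Multiset.replicate (n - p) 0)
  constructor
  · obtain ⟨l, hl, hmd⟩ := exists_MM hcard hfg hpos.ne'
    rw [← hmd]
    rw [htri] at hl
    obtain ⟨l₁, l₂, h1, h2, rfl⟩ := sel_add hl
    obtain ⟨u', hu', rfl⟩ := sel_fin h1
    obtain ⟨v, hv, rfl⟩ := sel_fin h2
    choose u hu hgu using fun a => pen_im.1 (hu' a)
    refine ⟨u, v, fun a => pen_VH.1 (hu a), fun a => pen_VH.1 (hv a), ?_⟩
    rw [degreeOver_md, add_comm]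
    congr 2
    congr 1
    funext a
    exact hgu a
  · rintro _ ⟨u, v, hu, hv, rfl⟩
    rw [degreeOver_md]
    refine le_MM hcard hfg ?_
    rw [htri, add_comm]
    refine Multiset.Rel.add (sel_rep fun a => pen_VH.2 (hv a)) (sel_rep fun a => ?_)
    exact pen_im.2 ⟨_, pen_VH.2 (hu a), rfl⟩

/-- the degree of the variety is positive -/
theorem MM_VH_pos (hy : NormalModel y) (hn : Algebra.trdeg ℂ K = n) :
    0 < MM (Multiset.replicate n (VH y)) := by
  have hess := hy.ess
  obtain ⟨u, hu, hd⟩ := exists_complete hy hn (Nat.zero_le n) (g := (Fin.elim0 : Fin 0 → K))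
    (by
      rw [algebraicIndependent_empty_type_iff]
      exact (algebraMap ℂ K).injective)
  rw [← degreeOver_eq, degreeOver_md] at hd
  refine hd.trans_le (le_MM (by rw [Multiset.card_replicate, hn]) (fun U hU => by
    rw [Multiset.eq_of_mem_replicate hU]
    exact VH_fg) ?_)
  have h1 : Finset.univ.val.map (Fin.elim0 : Fin 0 → K) = 0 := by simp
  rw [h1, zero_add]
  exact sel_rep (V := VH y) (v := u) fun a => pen_VH.2 (hu a)

/-- **The numerical dimension of a nef divisor and the dynamical degrees.** -/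
theorem dynL (hy : NormalModel y) (hn : Algebra.trdeg ℂ K = n) {D : Place ℂ K → ℚ}
    (hD : IsDivisor y D) (hcar : Cartier y n D) (hnef : Nef y n D) (φ : K →ₐ[ℂ] K) {lam : ℕ}
    (hlam : 1 ≤ lam) (hle : PullLe y D φ lam) (hge : lam = 1 ∨ PullGe y n D φ lam) :
    ∃ δ : ℕ → ℝ, (∀ p ≤ n, 1 ≤ δ p ∧ DynDegree y n φ p (δ p)) ∧ δ 0 = 1 ∧
      δ n = mapDegree φ ∧
      ∀ j ≤ n, ¬ NumLt y n D j → ∃ q, q + j ≤ n ∧ ∀ i ≤ j, ∀ p ≤ n,
        δ p / (lam : ℝ) ^ p ≤ δ (q + i) / (lam : ℝ) ^ (q + i) := by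
  classical
  have hess := hy.ess
  obtain ⟨i, hi⟩ := hy.ne
  obtain ⟨A, hA, hAP⟩ := exists_hyp hy hi
  obtain ⟨a, M, β, C, hF, hdom, hup⟩ := exists_famL hy hn hD hcar hnef φ hlam hle hi hA hAP
  have hl0 : (0 : ℝ) < lam := by exact_mod_cast hlam
  -- positivity
  have hgj : ∀ j ≤ n, 0 < GT φ (VH y) (fun q => VF y ((a q * q) • D + a q • A)) a 0 j
      (Multiset.replicate (n - j) 0) →
      0 < GJ φ (VH y) (fun q => VF y ((a q * q) • D + a q • A)) a lam j
      (Multiset.replicate (n - j) 0) := by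
    intro j hj hpos
    rcases hge with h1 | h1
    · subst h1
      exact GJ_ge_one hF hj hpos
    · obtain ⟨C₁, hC₁, h2⟩ := hup h1
      exact GJ_ge_eq hF hC₁ h2 hj hpos
  have hpos0 : 0 < GT φ (VH y) (fun q => VF y ((a q * q) • D + a q • A)) a 0 0
      (Multiset.replicate (n - 0) 0) := by
    have h1 := MM_VH_pos hy hn
    unfold GT DYR.gam
    rw [Multiset.map_replicate, AA_zero, Nat.sub_zero]
    exact_mod_cast h1
  obtain ⟨d, hd, hd0, hdn, -⟩ := fam_plateau hF (Nat.zero_le n) (hgj 0 (Nat.zero_le n) hpos0)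
  have hpos : ∀ p ≤ n, ∀ m : ℕ,
      0 < MM ((Multiset.replicate p m + Multiset.replicate (n - p) 0).map (AA φ (VH y))) := by
    intro p hp m
    have h1 := GJ_pos hF (Nat.zero_le n) (hgj 0 (Nat.zero_le n) hpos0) 0 le_rfl
      (Multiset.replicate p m + Multiset.replicate (n - p) 0) (by
        rw [Multiset.card_add, Multiset.card_replicate, Multiset.card_replicate]; omega)
    rw [GJ_zero hF] at h1
    exact_mod_cast h1
  have hdeg : (0 : ℝ) < mapDegree φ := by exact_mod_cast hF.deg
  refine ⟨fun p => Real.exp (d p), fun p hp => ⟨?_, _, fun m => isGreatest_iter hn hF hp m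
    (hpos p hp m), tendsto_root (hpos p hp) (hd p hp)⟩, ?_, ?_, fun j hj hnd => ?_⟩
  · refine Real.one_le_exp (ge_of_tendsto' (hd p hp) fun m => ?_)
    have h1 : (1 : ℝ) ≤ MM ((Multiset.replicate p m +
        Multiset.replicate (n - p) 0).map (AA φ (VH y))) := by
      exact_mod_cast hpos p hp m
    exact div_nonneg (Real.log_nonneg h1) (Nat.cast_nonneg _)
  · simp only [hd0, Real.exp_zero]
  · simp only [hdn]
    exact Real.exp_log hdeg
  · obtain ⟨d', hd', -, -, q, hq, hmax⟩ := fam_plateau hF hj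
      (hgj j hj (GT_pos_of hy hn hD hi hA hAP hF hdom hj hnd))
    have e : ∀ p ≤ n, d' p = d p := fun p hp => tendsto_nhds_unique (hd' p hp) (hd p hp)
    refine ⟨q, hq, fun i hi p hp => ?_⟩
    have h1 := hmax i hi p hp
    rw [e p hp, e (q + i) (by omega)] at h1
    have h2 : ∀ k : ℕ, Real.exp (d k) / (lam : ℝ) ^ k = Real.exp (d k - k * Real.log lam) := by
      intro k
      rw [Real.exp_sub]
      congr 1
      rw [mul_comm, ← Real.rpow_def_of_pos hl0, Real.rpow_natCast]
    simp only [h2]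
    exact Real.exp_le_exp.2 h1

/-- few maximal values: the Iitaka dimension is the numerical dimension -/
theorem abundance_of_few (hy : NormalModel y) (hn : Algebra.trdeg ℂ K = n) {D : Place ℂ K → ℚ}
    {δ : ℕ → ℝ} (h : ∀ j ≤ n, ¬ NumLt y n D j → ∃ q, q + j ≤ n ∧ ∀ i ≤ j, ∀ p ≤ n, δ p ≤ δ (q + i))
    {k : ℕ} (hk : k < n) (hkod : IitakaGe y D k)
    (hfew : ¬ ∃ q, q + (k + 1) ≤ n ∧ ∀ i ≤ k + 1, ∀ p ≤ n, δ p ≤ δ (q + i)) :
    IitakaEq y D k ∧ NumEq y n D k := by
  have h1 : NumLt y n D (k + 1) := by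
    by_contra h2
    exact hfew (h (k + 1) hk h2)
  exact ⟨⟨hkod, iitaka_lt hy hn hk h1⟩, h1, fun h2 => iitaka_lt hy hn hk.le h2 hkod⟩

end

end Pool.Agent.T2H06.DYL
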