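import Pool.Agent.R887.Defs

/-!
Definitions: sections of divisors, Cartier and nef divisors, their Iitaka and numerical dimensions,
and the comparison of a divisor with its pull back by a dominant rational self-map.
-/

set_option autoImplicit false

open Filter Topology FF Pool.Agent.W602.GT Pool.Agent.Y172 Pool.Agent.R887

namespace Pool.Agent.T2H06.DYL

section

variable {K : Type} [Field K] [Algebra ℂ K] {N : ℕ}

/-- `D` is a `ℚ`-divisor on `X`: finitely many prime divisors of `X` have a multiplicity `D P ≠ 0`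
(the values of `D` at the other places are irrelevant). -/
def IsDivisor (y : Fin (N + 1) → K) (D : Place ℂ K → ℚ) : Prop :=
  {P | IsPrimeDivisor y P ∧ D P ≠ 0}.Finite

/-- The rational function `g` on `X` is a section of `D`: it is zero or `div g + D ≥ 0`. -/
def IsSec (y : Fin (N + 1) → K) (D : Place ℂ K → ℚ) (g : K) : Prop :=
  ∀ P, IsPrimeDivisor y P → g = 0 ∨ -(D P) ≤ P.ord g

/-- The rational function `g` is a local equation of `D` at the centre of the place `Q` on `X`: the
order of `g` is `D P` along all prime divisors `P` of `X` through this centre. -/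
def LocalEquation (y : Fin (N + 1) → K) (D : Place ℂ K → ℚ) (Q : Place ℂ K) (g : K) : Prop :=
  g ≠ 0 ∧ ∀ P, IsPrimeDivisor y P → Through y P Q → (P.ord g : ℚ) = D P

/-- `D` is a Cartier divisor on `X`, `n` being the dimension of `X`: it has local equations at the
centres of all prime divisors over `X`. -/
def Cartier (y : Fin (N + 1) → K) (n : ℕ) (D : Place ℂ K → ℚ) : Prop :=
  ∀ Q : Place ℂ K, Divisorial n Q → ∃ g, LocalEquation y D Q g

/-- `D` is nef, `n` being the dimension of `X`: for all `q ≥ 1` the divisor `q D + H`, `H` being the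
hyperplane section `y i = 0`, is semiample, that is, for some `m ≥ 1` the divisor `m (q D + H)` is
generated by its sections at the centres of all prime divisors `Q` over `X`: for every `Q` it has a
section `g` without zeros along the prime divisors of `X` through the centre of `Q`. -/
def Nef (y : Fin (N + 1) → K) (n : ℕ) (D : Place ℂ K → ℚ) : Prop :=
  ∀ i, y i ≠ 0 → ∀ q : ℕ, 1 ≤ q → ∃ m : ℕ, 1 ≤ m ∧ ∀ Q : Place ℂ K, Divisorial n Q →
    ∃ g : K, g ≠ 0 ∧
      (∀ P l, IsPrimeDivisor y P → Centred y l P →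
        -(m * (q * D P + P.ord (y i / y l))) ≤ P.ord g) ∧
      ∀ P l, IsPrimeDivisor y P → Through y P Q → Centred y l P →
        (P.ord g : ℚ) = -(m * (q * D P + P.ord (y i / y l)))

/-- The Iitaka dimension of `D` is at least `k`: for some `m ≥ 1` there are `k + 1` sections of `m D`
such that the quotients of the last `k` ones by the first one are algebraically independent. -/
def IitakaGe (y : Fin (N + 1) → K) (D : Place ℂ K → ℚ) (k : ℕ) : Prop :=
  ∃ m : ℕ, 1 ≤ m ∧ ∃ s : Fin (k + 1) → K, (∀ i, IsSec y (m • D) (s i)) ∧ s 0 ≠ 0 ∧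
    AlgebraicIndependent ℂ (fun i : Fin k => s i.succ / s 0)

/-- The Iitaka dimension of `D` is `k`. -/
def IitakaEq (y : Fin (N + 1) → K) (D : Place ℂ K → ℚ) (k : ℕ) : Prop :=
  IitakaGe y D k ∧ ¬ IitakaGe y D (k + 1)

/-- The numerical dimension of `D` is less than `j`, `n` being the dimension of `X`: the positive
intersection product of `j` copies of `D` and `n - j` hyperplane sections is zero. This means, for all
effective divisors `A`: for all `ε > 0` there is `t > 0` such that for all large `m` and all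
`b ≤ t m` the rational maps given by the sections `s 0, ..., s j` of `m D + b A` together with
`n - j` pencils `u` of hyperplane sections have degree at most `ε m ^ j`. -/
def NumLt (y : Fin (N + 1) → K) (n : ℕ) (D : Place ℂ K → ℚ) (j : ℕ) : Prop :=
  ∀ A : Place ℂ K → ℚ, Effective y A → ∀ ε : ℝ, 0 < ε → ∃ t : ℝ, 0 < t ∧ ∃ m₀ : ℕ, ∀ m b : ℕ,
    m₀ ≤ m → (b : ℝ) ≤ t * m → ∀ u : Fin (n - j) → K, (∀ a, IsPencil y (u a)) →
    ∀ s : Fin (j + 1) → K, (∀ i, IsSec y (m • D + b • A) (s i)) → s 0 ≠ 0 →
      (degreeOver u (fun i : Fin j => s i.succ / s 0) : ℝ) ≤ ε * m ^ j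

/-- The numerical dimension of `D` is `k`. -/
def NumEq (y : Fin (N + 1) → K) (n : ℕ) (D : Place ℂ K → ℚ) (k : ℕ) : Prop :=
  NumLt y n D (k + 1) ∧ ¬ NumLt y n D k

/-- The class of the divisor `lam D - f^* D` on `X` is pseudo-effective, for the Cartier divisor `D`
on `X` and the dominant rational self-map `f` of `X`, `φ = f^*`: for all `q ≥ 1` the divisor
`q (lam D - f^* D) + H`, `H` being the hyperplane section `y i = 0`, is `ℚ`-linearly equivalent to an
effective divisor, that is, for some `a ≥ 1` and some `w ≠ 0` the divisor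
`a (q (lam D - f^* D) + H) + div w` has multiplicities `≥ 0` along all prime divisors `Q` of `X`. Here
`f^* D` has the multiplicity `Q.ord (φ g)` along `Q`, if `Q` is mapped to the divisor `Q'` over `X`
and `g` is a local equation of `D` at the centre of `Q'`. -/
def PullLe (y : Fin (N + 1) → K) (D : Place ℂ K → ℚ) (φ : K →ₐ[ℂ] K) (lam : ℕ) : Prop :=
  ∀ i, y i ≠ 0 → ∀ q : ℕ, 1 ≤ q → ∃ a : ℕ, 1 ≤ a ∧ ∃ w : K, w ≠ 0 ∧
    ∀ (Q Q' : Place ℂ K) (e : ℕ) (l : Fin (N + 1)) (g : K), IsPrimeDivisor y Q →
      LiesOver φ Q Q' e → Centred y l Q → LocalEquation y D Q' g →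
        (a : ℚ) * (q * Q.ord (φ g)) ≤ a * (q * (lam * D Q) + Q.ord (y i / y l)) + Q.ord w

/-- The class of `f^* D - lam D` is pseudo-effective on the models of `K`, for the Cartier divisor `D`
on `X` and the dominant rational self-map `f` of `X`, `φ = f^*`: for all `q ≥ 1` there are `a ≥ 1` and
`w ≠ 0` such that `a (q (f^* D - lam D) + H) + div w` has multiplicities `≥ 0` along all prime
divisors `Q` over `X`, where `D` has the multiplicity `Q.ord g` along `Q`, `g` being a local equation
of `D` at the centre of `Q`, and `f^* D` has the multiplicity `Q.ord (φ g')`, if `Q` is mapped to `Q'`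
and `g'` is a local equation of `D` at the centre of `Q'`. -/
def PullGe (y : Fin (N + 1) → K) (n : ℕ) (D : Place ℂ K → ℚ) (φ : K →ₐ[ℂ] K) (lam : ℕ) : Prop :=
  ∀ i, y i ≠ 0 → ∀ q : ℕ, 1 ≤ q → ∃ a : ℕ, 1 ≤ a ∧ ∃ w : K, w ≠ 0 ∧
    ∀ (Q Q' : Place ℂ K) (e : ℕ) (l : Fin (N + 1)) (g g' : K), Divisorial n Q →
      LiesOver φ Q Q' e → Centred y l Q → LocalEquation y D Q g → LocalEquation y D Q' g' →
        (a : ℤ) * (q * (lam * Q.ord g)) ≤ a * (q * Q.ord (φ g') + Q.ord (y i / y l)) + Q.ord w

end

end Pool.Agent.T2H06.DYL
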