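import Pool.Agent.T2H06.DYL.LimL
import Pool.Agent.T2H06.DYR.LimS

/-!
The limits along the iterates, normalised by powers of `lam`; the growth rates of the intersection
numbers.
-/

set_option autoImplicit false
set_option linter.overlappingInstances false
set_option linter.unusedSectionVars false
set_option linter.unusedVariables false

open Filter Topology FF Module IntermediateField Pool.Agent.R887 Pool.Agent.W602.GT
open Pool.Agent.T2H06.DYN (MM MM_dom MM_dom_rep MM_four Dom LD tri tri_card)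
open Pool.Agent.T2H06.DYR (im mem_im im_fg im_im im_one MM_map exists_under dom_map dom_trans OrdF gam
  gam_ge gam_int plateau ext ext_lor ext_mixed ext_dom ext_eq up_tri LorT)

namespace Pool.Agent.T2H06.DYL

section fam

variable {K : Type} [Field K] [Algebra ℂ K] [Algebra.EssFiniteType ℂ K] {n : ℕ} {φ : K →ₐ[ℂ] K}
  {H : Submodule ℂ K} {V : ℕ → Submodule ℂ K} {a : ℕ → ℕ} {M β C lam : ℕ}

/-- the normalised limits -/
noncomputable def GN (φ : K →ₐ[ℂ] K) (H : Submodule ℂ K) (V : ℕ → Submodule ℂ K) (a : ℕ → ℕ)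
    (lam i : ℕ) (s : Multiset ℕ) (τ : ℕ) : ℝ := GT φ H V a τ i s / (lam : ℝ) ^ (i * τ)

/-- the limit along the iterates -/
noncomputable def GJ (φ : K →ₐ[ℂ] K) (H : Submodule ℂ K) (V : ℕ → Submodule ℂ K) (a : ℕ → ℕ)
    (lam i : ℕ) (s : Multiset ℕ) : ℝ := ⨅ τ, GN φ H V a lam i s τ

theorem GN_nonneg (hF : FamL n φ H V a M β C lam) {i : ℕ} {s : Multiset ℕ}
    (h : i + s.card = n) (τ : ℕ) : 0 ≤ GN φ H V a lam i s τ :=
  div_nonneg (GT_nonneg hF τ h) (by positivity)

theorem GJ_tendsto (hF : FamL n φ H V a M β C lam) {i : ℕ} {s : Multiset ℕ}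
    (h : i + s.card = n) :
    Tendsto (GN φ H V a lam i s) atTop (𝓝 (GJ φ H V a lam i s)) := by
  have hl0 : (0 : ℝ) < lam := by exact_mod_cast hF.lam1
  refine tendsto_atTop_ciInf (antitone_nat_of_succ_le fun τ => ?_)
    ⟨0, by rintro _ ⟨τ, rfl⟩; exact GN_nonneg hF h τ⟩
  unfold GN
  rw [div_le_div_iff₀ (by positivity) (by positivity)]
  have h1 := mul_le_mul_of_nonneg_right (GT_anti hF τ h)
    (show (0 : ℝ) ≤ (lam : ℝ) ^ (i * τ) by positivity)
  refine h1.trans (le_of_eq ?_)
  rw [show i * (τ + 1) = i * τ + i by ring, pow_add]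
  ring

theorem GJ_trans (hF : FamL n φ H V a M β C lam) {i : ℕ} {s : Multiset ℕ} (h : i + s.card = n) :
    GJ φ H V a lam i (s.map (fun x => x + 1)) =
      mapDegree φ / (lam : ℝ) ^ i * GJ φ H V a lam i s := by
  have hl0 : (0 : ℝ) < lam := by exact_mod_cast hF.lam1
  have h' : i + (s.map (fun x => x + 1)).card = n := by rw [Multiset.card_map, h]
  have h1 := (GJ_tendsto hF h').comp (tendsto_add_atTop_nat 1)
  refine tendsto_nhds_unique h1 (((GJ_tendsto hF h).const_mul
    ((mapDegree φ : ℝ) / (lam : ℝ) ^ i)).congr fun τ => ?_)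
  simp only [Function.comp_apply]
  unfold GN
  rw [GT_trans hF τ h, show i * (τ + 1) = i * τ + i by ring, pow_add]
  field_simp

theorem GJ_four (hF : FamL n φ H V a M β C lam) {i : ℕ} {s : Multiset ℕ}
    (h : i + s.card + 2 = n) (b c d e : ℕ) :
    GJ φ H V a lam i (b ::ₘ c ::ₘ s) * GJ φ H V a lam i (d ::ₘ e ::ₘ s) ≤
      2 * (GJ φ H V a lam i (b ::ₘ d ::ₘ s) * GJ φ H V a lam i (c ::ₘ e ::ₘ s) +
        GJ φ H V a lam i (b ::ₘ e ::ₘ s) * GJ φ H V a lam i (c ::ₘ d ::ₘ s)) := by
  have hl0 : (0 : ℝ) < lam := by exact_mod_cast hF.lam1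
  have hc : ∀ x y : ℕ, i + (x ::ₘ y ::ₘ s).card = n := fun x y => by
    rw [Multiset.card_cons, Multiset.card_cons]; omega
  refine le_of_tendsto_of_tendsto' ((GJ_tendsto hF (hc b c)).mul (GJ_tendsto hF (hc d e)))
    ((((GJ_tendsto hF (hc b d)).mul (GJ_tendsto hF (hc c e))).add
      ((GJ_tendsto hF (hc b e)).mul (GJ_tendsto hF (hc c d)))).const_mul 2) fun τ => ?_
  unfold GN
  have h1 := GT_four hF τ h b c d e
  rw [div_mul_div_comm, div_mul_div_comm, div_mul_div_comm, ← add_div, ← mul_div_assoc]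
  exact div_le_div_of_nonneg_right h1 (by positivity)

theorem GJ_mixed (hF : FamL n φ H V a M β C lam) {i : ℕ} {s : Multiset ℕ}
    (h : i + s.card + 2 = n) (b c d : ℕ) :
    GJ φ H V a lam i (b ::ₘ c ::ₘ s) * GJ φ H V a lam (i + 1) (d ::ₘ s) ≤
      2 * (GJ φ H V a lam i (b ::ₘ d ::ₘ s) * GJ φ H V a lam (i + 1) (c ::ₘ s) +
        GJ φ H V a lam i (c ::ₘ d ::ₘ s) * GJ φ H V a lam (i + 1) (b ::ₘ s)) := by
  have hl0 : (0 : ℝ) < lam := by exact_mod_cast hF.lam1
  have hc : ∀ x y : ℕ, i + (x ::ₘ y ::ₘ s).card = n := fun x y => by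
    rw [Multiset.card_cons, Multiset.card_cons]; omega
  have hc' : ∀ x : ℕ, i + 1 + (x ::ₘ s).card = n := fun x => by
    rw [Multiset.card_cons]; omega
  refine le_of_tendsto_of_tendsto' ((GJ_tendsto hF (hc b c)).mul (GJ_tendsto hF (hc' d)))
    ((((GJ_tendsto hF (hc b d)).mul (GJ_tendsto hF (hc' c))).add
      ((GJ_tendsto hF (hc c d)).mul (GJ_tendsto hF (hc' b)))).const_mul 2) fun τ => ?_
  unfold GN
  have h1 := GT_mixed hF τ h b c d
  rw [div_mul_div_comm, div_mul_div_comm, div_mul_div_comm, ← add_div, ← mul_div_assoc]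
  exact div_le_div_of_nonneg_right h1 (by positivity)

theorem GJ_dom (hF : FamL n φ H V a M β C lam) (t : ℕ) {i : ℕ} {s : Multiset ℕ}
    (h : i + 1 + s.card = n) :
    GJ φ H V a lam (i + 1) s ≤ M / (lam : ℝ) ^ t * GJ φ H V a lam i (t ::ₘ s) := by
  have hl0 : (0 : ℝ) < lam := by exact_mod_cast hF.lam1
  have h' : i + (t ::ₘ s).card = n := by rw [Multiset.card_cons]; omega
  refine le_of_tendsto_of_tendsto (GJ_tendsto hF h) ((GJ_tendsto hF h').const_mul _) ?_
  filter_upwards [eventually_ge_atTop t] with τ hτ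
  obtain ⟨σ, rfl⟩ : ∃ σ, τ = t + σ := ⟨τ - t, by omega⟩
  have h1 := GT_dom hF t σ h
  unfold GN
  rw [div_le_iff₀ (by positivity)]
  refine h1.trans (le_of_eq ?_)
  rw [show (i + 1) * (t + σ) = i * (t + σ) + (t + σ) by ring, pow_add, pow_add]
  field_simp

theorem GJ_hyp (hF : FamL n φ H V a M β C lam) {t t' : ℕ} {C' : ℕ} {h₀ : K}
    (hd : Dom n (AA φ H t) (AA φ H t') 1 C' h₀) {i k : ℕ} {s : Multiset ℕ}
    (h : i + (k + s.card) = n) :
    GJ φ H V a lam i (Multiset.replicate k t + s) ≤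
      (C' : ℝ) ^ k * GJ φ H V a lam i (Multiset.replicate k t' + s) := by
  have hl0 : (0 : ℝ) < lam := by exact_mod_cast hF.lam1
  have hc : ∀ t, i + (Multiset.replicate k t + s).card = n := fun t => by
    rw [Multiset.card_add, Multiset.card_replicate, h]
  refine le_of_tendsto_of_tendsto' (GJ_tendsto hF (hc t)) ((GJ_tendsto hF (hc t')).const_mul _)
    fun τ => ?_
  unfold GN
  rw [← mul_div_assoc]
  exact div_le_div_of_nonneg_right (GT_hyp hF τ hd h) (by positivity)

theorem GJ_zero (hF : FamL n φ H V a M β C lam) {s : Multiset ℕ} :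
    GJ φ H V a lam 0 s = MM (s.map (AA φ H)) := by
  unfold GJ GN GT gam
  simp only [zero_mul, pow_zero, div_one]
  exact ciInf_const

/-- **Integrality**: positivity for `lam = 1`. -/
theorem GJ_ge_one (hF : FamL n φ H V a M β C 1) {j : ℕ} (hj : j ≤ n)
    (hpos : 0 < GT φ H V a 0 j (Multiset.replicate (n - j) 0)) :
    0 < GJ φ H V a 1 j (Multiset.replicate (n - j) 0) := by
  have ha1 : 1 ≤ a 1 := a_pos hF le_rfl
  have ha2 : 1 ≤ a 2 := a_pos hF (by omega)
  have h1 : ∀ τ, 1 / ((a 1 : ℝ) * a 2) ^ j ≤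
      GN φ H V a 1 j (Multiset.replicate (n - j) 0) τ := by
    intro τ
    unfold GN
    rw [Nat.cast_one, one_pow, div_one]
    exact gam_ge ha1 ha2 (GT_pos hF hj hpos τ)
  have h2 : (0 : ℝ) < 1 / ((a 1 : ℝ) * a 2) ^ j := by
    have : (0 : ℝ) < a 1 := by exact_mod_cast ha1
    have : (0 : ℝ) < a 2 := by exact_mod_cast ha2
    positivity
  exact h2.trans_le (le_ciInf h1)

/-- positivity if the class is exactly multiplied by `lam` -/
theorem GJ_ge_eq (hF : FamL n φ H V a M β C lam) {C₁ : ℕ} (hC₁ : 1 ≤ C₁)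
    (hup : ∀ q, 1 ≤ q → ∃ (α : ℕ) (h : K), 1 ≤ α ∧ Dom n (V (C₁ * (lam * q))) (im φ (V q))
      (α * a q) (α * (C₁ * a (C₁ * (lam * q)))) h) {j : ℕ} (hj : j ≤ n)
    (hpos : 0 < GT φ H V a 0 j (Multiset.replicate (n - j) 0)) :
    0 < GJ φ H V a lam j (Multiset.replicate (n - j) 0) := by
  have hl0 : (0 : ℝ) < lam := by exact_mod_cast hF.lam1
  have hc : j + (Multiset.replicate (n - j) (0 : ℕ)).card = n := by
    rw [Multiset.card_replicate]; omega
  refine hpos.trans_le (le_ciInf fun τ => ?_)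
  unfold GN
  rw [le_div_iff₀ (by positivity)]
  induction τ with
  | zero => rw [mul_zero, pow_zero, mul_one]
  | succ τ ih =>
    have h1 := GT_mono hF hC₁ hup τ hc
    refine le_trans ?_ h1
    rw [show j * (τ + 1) = j * τ + j by ring, pow_add]
    have h2 := mul_le_mul_of_nonneg_left ih (show (0 : ℝ) ≤ (lam : ℝ) ^ j by positivity)
    refine le_trans (le_of_eq ?_) h2
    ring

/-- all translates of `H` are replaced -/
theorem GJ_all (hF : FamL n φ H V a M β C lam) (s : Multiset ℕ) : ∃ C' : ℝ, ∀ (i : ℕ)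
    (s' : Multiset ℕ), i + (s.card + s'.card) = n →
      GJ φ H V a lam i (Multiset.replicate s.card 0 + s') ≤ C' * GJ φ H V a lam i (s + s') := by
  induction s using Multiset.induction_on with
  | empty =>
    refine ⟨1, fun i s' _ => ?_⟩
    rw [Multiset.card_zero, Multiset.replicate_zero, one_mul]
  | cons t s ih =>
    obtain ⟨C₁, hC₁⟩ := ih
    obtain ⟨C₂, h₀, hd⟩ := dom_up hF t
    refine ⟨|C₁| * C₂, fun i s' h => ?_⟩
    rw [Multiset.card_cons] at h ⊢
    have e1 : Multiset.replicate (s.card + 1) 0 + s' = Multiset.replicate s.card 0 + 0 ::ₘ s' := by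
      rw [Multiset.replicate_succ, Multiset.cons_add, Multiset.add_cons]
    have h1 := hC₁ i (0 ::ₘ s') (by rw [Multiset.card_cons]; omega)
    have h2 := GJ_hyp hF hd (i := i) (k := 1) (s := s + s') (by
      rw [Multiset.card_add]; omega)
    rw [pow_one, Multiset.replicate_one, Multiset.singleton_add, Multiset.replicate_one,
      Multiset.singleton_add] at h2
    have e2 : s + 0 ::ₘ s' = 0 ::ₘ (s + s') := Multiset.add_cons _ _ _
    rw [e1, Multiset.cons_add]
    rw [e2] at h1
    have hnn : 0 ≤ GJ φ H V a lam i (0 ::ₘ (s + s')) :=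
      ge_of_tendsto' (GJ_tendsto hF (by rw [Multiset.card_cons, Multiset.card_add]; omega))
        fun τ => GN_nonneg hF (by rw [Multiset.card_cons, Multiset.card_add]; omega) τ
    obtain ⟨x, hx⟩ : ∃ x, x = GJ φ H V a lam i (0 ::ₘ (s + s')) := ⟨_, rfl⟩
    obtain ⟨z, hz⟩ : ∃ z, z = GJ φ H V a lam i (t ::ₘ (s + s')) := ⟨_, rfl⟩
    rw [← hx] at h1 h2 hnn
    rw [← hz] at h2 ⊢
    have h3 := mul_le_mul_of_nonneg_right (le_abs_self C₁) hnn
    have h4 := mul_le_mul_of_nonneg_left h2 (abs_nonneg C₁)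
    have h5 : |C₁| * ((C₂ : ℝ) * z) = |C₁| * C₂ * z := by ring
    linarith

/-- positivity -/
theorem GJ_pos (hF : FamL n φ H V a M β C lam) {j : ℕ} (hj : j ≤ n)
    (hpos : 0 < GJ φ H V a lam j (Multiset.replicate (n - j) 0)) :
    ∀ i ≤ j, ∀ s : Multiset ℕ, i + s.card = n → 0 < GJ φ H V a lam i s := by
  have hl0 : (0 : ℝ) < lam := by exact_mod_cast hF.lam1
  have h1 : ∀ s : Multiset ℕ, j + s.card = n → 0 < GJ φ H V a lam j s := by
    intro s hs
    obtain ⟨C', hC'⟩ := GJ_all hF s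
    have h2 := hC' j 0 (by rw [Multiset.card_zero]; omega)
    have e1 : s.card = n - j := by omega
    rw [add_zero, add_zero, e1] at h2
    have hnn : 0 ≤ GJ φ H V a lam j s :=
      ge_of_tendsto' (GJ_tendsto hF hs) fun τ => GN_nonneg hF hs τ
    rcases hnn.lt_or_eq with h3 | h3
    · exact h3
    · rw [← h3, mul_zero] at h2
      linarith
  have h2 : ∀ l ≤ j, ∀ s : Multiset ℕ, j - l + s.card = n → 0 < GJ φ H V a lam (j - l) s := by
    intro l
    induction l with
    | zero =>
      intro _ s hs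
      exact h1 s hs
    | succ l ih =>
      intro hl s hs
      obtain ⟨t, s', rfl⟩ : ∃ t s', s = t ::ₘ s' := by
        have h3 : 0 < s.card := by omega
        obtain ⟨t, ht⟩ := Multiset.card_pos_iff_exists_mem.1 h3
        exact ⟨t, s.erase t, (Multiset.cons_erase ht).symm⟩
      rw [Multiset.card_cons] at hs
      have h3 := ih (by omega) s' (by omega)
      have e : j - l = j - (l + 1) + 1 := by omega
      rw [e] at h3
      have h4 := GJ_dom hF t (i := j - (l + 1)) (s := s') (by omega)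
      by_contra hc
      push Not at hc
      have h5 : (0 : ℝ) ≤ M / (lam : ℝ) ^ t := by positivity
      have h6 := mul_nonpos_of_nonneg_of_nonpos h5 hc
      linarith
  intro i hi s hs
  have h3 := h2 (j - i) (by omega) s (by omega)
  have e : j - (j - i) = i := by omega
  rwa [e] at h3

/-- the function which is invariant up to a constant -/
noncomputable def GP (φ : K →ₐ[ℂ] K) (H : Submodule ℂ K) (V : ℕ → Submodule ℂ K) (a : ℕ → ℕ)
    (lam i : ℕ) (s : Multiset ℕ) : ℝ := GJ φ H V a lam i s / (lam : ℝ) ^ s.sum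

theorem sum_map_one (s : Multiset ℕ) : (s.map (fun x => x + 1)).sum = s.sum + s.card := by
  rw [Multiset.sum_map_add, Multiset.map_id', Multiset.map_const', Multiset.sum_replicate,
    smul_eq_mul, mul_one]

/-- **The growth rates of the intersection numbers of the translates of `H`.** -/
theorem fam_plateau (hF : FamL n φ H V a M β C lam) {j : ℕ} (hj : j ≤ n)
    (hpos : 0 < GJ φ H V a lam j (Multiset.replicate (n - j) 0)) :
    ∃ d : ℕ → ℝ, (∀ p ≤ n, Tendsto (fun m : ℕ =>
      Real.log (MM ((Multiset.replicate p m + Multiset.replicate (n - p) 0).map (AA φ H))) / m)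
        atTop (𝓝 (d p))) ∧ d 0 = 0 ∧ d n = Real.log (mapDegree φ) ∧
      ∃ q, q + j ≤ n ∧ ∀ i ≤ j, ∀ p ≤ n,
        d p - p * Real.log lam ≤ d (q + i) - (q + i : ℕ) * Real.log lam := by
  have hl0 : (0 : ℝ) < lam := by exact_mod_cast hF.lam1
  have hd0' : (0 : ℝ) < mapDegree φ := by exact_mod_cast hF.deg
  obtain ⟨D, hD⟩ : ∃ D : ℝ, D = (mapDegree φ : ℝ) / (lam : ℝ) ^ n := ⟨_, rfl⟩
  have hd0 : 0 < D := by rw [hD]; positivity
  have hallpos := GJ_pos hF hj hpos
  have hpp : ∀ i ≤ j, ∀ s : Multiset ℕ, s.card = n - i → 0 < GP φ H V a lam i s := by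
    intro i hi s hs
    unfold GP
    have := hallpos i hi s (by omega)
    positivity
  have htr : ∀ i ≤ n, ∀ s : Multiset ℕ, s.card = n - i →
      GP φ H V a lam i (s.map (fun x => x + 1)) = D * GP φ H V a lam i s := by
    intro i hi s hs
    unfold GP
    rw [GJ_trans hF (by omega), sum_map_one, hs, hD]
    obtain ⟨x, hx⟩ : ∃ x, x = GJ φ H V a lam i s := ⟨_, rfl⟩
    rw [← hx]
    have e : (lam : ℝ) ^ n = (lam : ℝ) ^ i * (lam : ℝ) ^ (n - i) := by
      rw [← pow_add]
      congr 1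
      omega
    rw [e, pow_add]
    field_simp
  have hfour : ∀ i ≤ j, ∀ (ω : Multiset ℕ) (b c e f : ℕ), ω.card + 2 = n - i →
      GP φ H V a lam i (b ::ₘ c ::ₘ ω) * GP φ H V a lam i (e ::ₘ f ::ₘ ω) ≤
        2 * (GP φ H V a lam i (b ::ₘ e ::ₘ ω) * GP φ H V a lam i (c ::ₘ f ::ₘ ω) +
          GP φ H V a lam i (b ::ₘ f ::ₘ ω) * GP φ H V a lam i (c ::ₘ e ::ₘ ω)) := by
    intro i hi ω b c e f hω
    have h1 := GJ_four hF (i := i) (s := ω) (by omega) b c e f
    unfold GP
    simp only [Multiset.sum_cons]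
    rw [div_mul_div_comm, div_mul_div_comm, div_mul_div_comm, ← pow_add, ← pow_add, ← pow_add]
    have e1 : b + (e + ω.sum) + (c + (f + ω.sum)) = b + (c + ω.sum) + (e + (f + ω.sum)) := by ring
    have e2 : b + (f + ω.sum) + (c + (e + ω.sum)) = b + (c + ω.sum) + (e + (f + ω.sum)) := by ring
    rw [e1, e2, ← add_div, ← mul_div_assoc]
    exact div_le_div_of_nonneg_right h1 (by positivity)
  have hmix : ∀ i < j, ∀ (ω : Multiset ℕ) (b c e : ℕ), ω.card + 1 = n - (i + 1) →
      GP φ H V a lam i (b ::ₘ c ::ₘ ω) * GP φ H V a lam (i + 1) (e ::ₘ ω) ≤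
        2 * (GP φ H V a lam i (b ::ₘ e ::ₘ ω) * GP φ H V a lam (i + 1) (c ::ₘ ω) +
          GP φ H V a lam i (c ::ₘ e ::ₘ ω) * GP φ H V a lam (i + 1) (b ::ₘ ω)) := by
    intro i hi ω b c e hω
    have h1 := GJ_mixed hF (i := i) (s := ω) (by omega) b c e
    unfold GP
    simp only [Multiset.sum_cons]
    rw [div_mul_div_comm, div_mul_div_comm, div_mul_div_comm, ← pow_add, ← pow_add, ← pow_add]
    have e1 : b + (e + ω.sum) + (c + ω.sum) = b + (c + ω.sum) + (e + ω.sum) := by ring
    have e2 : c + (e + ω.sum) + (b + ω.sum) = b + (c + ω.sum) + (e + ω.sum) := by ring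
    rw [e1, e2, ← add_div, ← mul_div_assoc]
    exact div_le_div_of_nonneg_right h1 (by positivity)
  have hdm : ∀ i < j, ∀ s : Multiset ℕ, s.card = n - (i + 1) → ∀ t : ℕ,
      GP φ H V a lam (i + 1) s ≤ M * GP φ H V a lam i (t ::ₘ s) := by
    intro i hi s hs t
    have h1 := GJ_dom hF t (i := i) (s := s) (by omega)
    unfold GP
    rw [Multiset.sum_cons, div_le_iff₀ (by positivity)]
    refine h1.trans (le_of_eq ?_)
    rw [pow_add]
    field_simp
  have hlor : ∀ i ≤ j, LorT (n - i) (Real.log D) (ext D (GP φ H V a lam i)) :=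
    fun i hi => ext_lor hd0 (htr i (by omega)) (fun s hs => hpp i hi s hs)
      fun ω b c d e hω => hfour i hi ω b c d e hω
  have hsucc : ∀ i < j, n - i = n - (i + 1) + 1 := fun i hi => by omega
  obtain ⟨d, hd, hq⟩ := plateau (D₀ := Real.log D) hj
    (F := fun i => ext D (GP φ H V a lam i)) hlor (by
      intro i hi ω b c e hω
      refine ext_mixed (N := n - (i + 1)) hd0 (fun s hs => htr i (by omega) s (by omega))
        (fun s hs => htr (i + 1) (by omega) s hs) (fun ω b c e hω => ?_) ω b c e hω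
      exact hmix i hi ω b c e hω) (by
      intro i hi
      refine ⟨M, fun s hs t => ?_⟩
      exact ext_dom (N := n - (i + 1)) hd0 (fun s hs => htr i (by omega) s (by omega))
        (fun s hs => htr (i + 1) (by omega) s hs) (fun s hs t => hdm i hi s hs t) s hs t)
  have h0 := hlor 0 (Nat.zero_le _)
  rw [Nat.sub_zero] at h0
  have hr0 := h0.rate_zero (hd 0 (Nat.zero_le _))
  have hrn := h0.rate_top (hd n le_rfl)
  refine ⟨fun p => d p + p * Real.log lam, fun p hp => ?_, ?_, ?_, ?_⟩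
  · have h1 := (hd p hp).add_const (p * Real.log lam)
    refine h1.congr' ?_
    filter_upwards [eventually_gt_atTop 0] with m hm
    have hm0 : (m : ℝ) ≠ 0 := by
      have : (0 : ℝ) < m := by exact_mod_cast hm
      exact this.ne'
    unfold LD
    have hv : ∀ x ∈ tri (m : ℤ) 0 0 p 0 (n - p), 0 ≤ x + ((0 : ℕ) : ℤ) := by
      intro x hx
      unfold tri at hx
      rcases Multiset.mem_add.1 hx with hx | hx
      · rcases Multiset.mem_add.1 hx with hx | hx
        · rw [Multiset.eq_of_mem_replicate hx]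
          positivity
        · rw [Multiset.eq_of_mem_replicate hx]
          simp
      · rw [Multiset.eq_of_mem_replicate hx]
        simp
    rw [ext_eq (N := n) hd0 (fun s hs => htr 0 (Nat.zero_le _) s (by omega))
      (by rw [tri_card]; omega) hv, pow_zero, inv_one, one_mul, up_tri]
    unfold GP
    rw [GJ_zero hF, Multiset.sum_add, Multiset.sum_replicate, Multiset.sum_replicate, smul_zero,
      add_zero, smul_eq_mul]
    have hMM : (0 : ℝ) < MM ((Multiset.replicate p m +
        Multiset.replicate (n - p) 0).map (AA φ H)) := by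
      have h2 := hallpos 0 (Nat.zero_le j) (Multiset.replicate p m +
        Multiset.replicate (n - p) 0) (by
          rw [Multiset.card_add, Multiset.card_replicate, Multiset.card_replicate]; omega)
      rwa [GJ_zero hF] at h2
    rw [Real.log_div hMM.ne' (by positivity), Real.log_pow]
    push_cast
    field_simp
    ring
  · simp only [hr0]
    push_cast
    ring
  · simp only [hrn]
    rw [hD, Real.log_div hd0'.ne' (by positivity), Real.log_pow]
    ring
  · obtain ⟨q, hqj, h2⟩ := hq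
    refine ⟨q, hqj, fun i hi p hp => ?_⟩
    have h3 := h2 i hi p hp
    simp only []
    linarith

end fam

end Pool.Agent.T2H06.DYL
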