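import Pool.Agent.T2H06.DYL.Sec
import Pool.Agent.T2H06.DYL.LimM

/-!
The linear systems of the sections of `m (q D + H)`, `D` nef, and the pull back by dominant rational
self-maps.
-/

set_option autoImplicit false
set_option linter.overlappingInstances false
set_option linter.unusedSectionVars false
set_option linter.unusedVariables false

open Filter Topology FF MvPolynomial Pool.Agent.W602.GT Pool.Agent.W603.LV Pool.Agent.W619.PQ
open Pool.Agent.Y172 Pool.Agent.Y191 Pool.Agent.R887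
open Pool.Agent.T2H06.DYN (MM MM_dom MM_dom_rep MM_four Dom VH VH_fg mem_VH pen_VH exists_ord_le
  fg_of_bound dominate' centred_of_through)
open Pool.Agent.T2H06.DYR (im mem_im im_fg im_im im_one MM_map exists_under dom_map dom_trans OrdF gam
  exists_pole exists_up' exists_dn deg_pos VH_ord)

namespace Pool.Agent.T2H06.DYL

section

variable {K : Type} [Field K] [Algebra ℂ K] {N n : ℕ} {y : Fin (N + 1) → K}

/-- **The family of the linear systems.** -/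
theorem exists_famL (hy : NormalModel y) (hn : Algebra.trdeg ℂ K = n)
    {D : Place ℂ K → ℚ} (hD : IsDivisor y D) (hcar : Cartier y n D) (hnef : Nef y n D)
    (φ : K →ₐ[ℂ] K) {lam : ℕ} (hlam : 1 ≤ lam) (hle : PullLe y D φ lam) {i : Fin (N + 1)}
    (hi : y i ≠ 0) {A : Place ℂ K → ℚ} (hA : Effective y A)
    (hAP : ∀ P l, IsPrimeDivisor y P → Centred y l P → A P = P.ord (y i / y l)) :
    ∃ (a : ℕ → ℕ) (M β C : ℕ),
      FamL n φ (VH y) (fun q => VF y ((a q * q) • D + a q • A)) a M β C lam ∧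
      (∀ m b q : ℕ, 1 ≤ q → b * q ≤ m →
        Dom n (VF y (m • D + b • A)) (VF y ((a q * q) • D + a q • A)) (a q * q) m 1) ∧
      (PullGe y n D φ lam → ∃ C₁ : ℕ, 1 ≤ C₁ ∧ ∀ q, 1 ≤ q → ∃ (α : ℕ) (h : K), 1 ≤ α ∧
        Dom n (VF y ((a (C₁ * (lam * q)) * (C₁ * (lam * q))) • D + a (C₁ * (lam * q)) • A))
          (im φ (VF y ((a q * q) • D + a q • A)))
          (α * a q) (α * (C₁ * a (C₁ * (lam * q)))) h) := by
  classical
  have hess := hy.ess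
  -- the multiples which are generated by sections
  have h1 : ∀ q, ∃ a : ℕ, 1 ≤ q → 1 ≤ a ∧ ∀ Q : Place ℂ K, Divisorial n Q →
      ∃ f : K, f ≠ 0 ∧ IsSec y ((a * q) • D + a • A) f ∧
        ∀ P l, IsPrimeDivisor y P → Through y P Q → Centred y l P →
        (P.ord f : ℚ) = -(a * (q * D P + P.ord (y i / y l))) := by
    intro q
    by_cases hq : 1 ≤ q
    · obtain ⟨m, hm, h⟩ := hnef i hi q hq
      refine ⟨m, fun _ => ⟨hm, fun Q hQ => ?_⟩⟩
      obtain ⟨f, hf0, hf1, hf2⟩ := h Q hQ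
      refine ⟨f, hf0, fun P hP => Or.inr ?_, hf2⟩
      obtain ⟨l, hl⟩ := exists_centred hy P
      have h3 := hf1 P l hP hl
      rw [Pi.add_apply, Pi.smul_apply, Pi.smul_apply, nsmul_eq_mul, nsmul_eq_mul,
        hAP P l hP hl]
      refine le_trans (le_of_eq ?_) h3
      push_cast
      ring
    · exact ⟨1, fun h => absurd h hq⟩
  choose a ha using h1
  -- the orders
  have h2 : ∀ Q : Place ℂ K, ∃ (g : K) (l : Fin (N + 1)), Centred y l Q ∧
      (Divisorial n Q → LocalEquation y D Q g) := by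
    intro Q
    obtain ⟨l, hl⟩ := exists_centred hy Q
    by_cases hQ : Divisorial n Q
    · obtain ⟨g, hg⟩ := hcar Q hQ
      exact ⟨g, l, hl, fun _ => hg⟩
    · exact ⟨1, l, hl, fun h => absurd h hQ⟩
  choose g l hl hg using h2
  have hpos : ∀ Q : Place ℂ K, 0 ≤ Q.ord (y i / y (l Q)) := fun Q =>
    (Q.reg_iff (div_ne_zero hi (hl Q).1)).1 ((hl Q).2 i)
  have hord : OrdF n (fun q => VF y ((a q * q) • D + a q • A)) a (fun Q => Q.ord (g Q))
      (fun Q => Q.ord (y i / y (l Q))) := by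
    refine ⟨fun q hq => VF_fg hy hn hD hi hA hAP _ _, fun q hq => (ha q hq).1,
      fun q hq P hP f hf hf0 => ?_, fun q hq P hP => ?_⟩
    · have h3 := sec_ge hy hi hAP hf hf0 (hl P) (hg P hP)
      refine le_trans (le_of_eq ?_) h3
      push_cast
      ring
    · obtain ⟨f, hf0, hf1, hf2⟩ := (ha q hq).2 P hP
      exact ⟨f, hf1, hf0, gen_eq hy hi hf0 (hl P) (hg P hP) hf2⟩
  -- the pull back
  obtain ⟨C0, q0, hC0, hq0, hCq⟩ := exists_pole hy hi φ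
  obtain ⟨s, hlin⟩ := exists_linF hy hD hi hA hAP
  -- the orders of the pull backs of sections
  have hpb : ∀ {Q P : Place ℂ K} {e : ℕ}, Divisorial n Q → Divisorial n P → 1 ≤ e →
      (∀ f, Q.ord (φ f) = e * P.ord f) → ∀ {q : ℕ} {f : K},
      f ∈ VF y ((a q * q) • D + a q • A) → f ≠ 0 →
      -((a q : ℤ) * (q * Q.ord (φ (g P)) + Q.ord (φ (y i / y (l P))))) ≤ Q.ord (φ f) := by
    intro Q P e hQ hP he hQP q f hf hf0
    have h3 := sec_ge hy hi hAP hf hf0 (hl P) (hg P hP)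
    rw [hQP, hQP, hQP]
    have h4 := mul_le_mul_of_nonneg_left h3 (show (0 : ℤ) ≤ e from Int.natCast_nonneg _)
    refine le_trans (le_of_eq ?_) h4
    push_cast
    ring
  refine ⟨a, s, 1, C0 + 1, ⟨hn, VH_fg, ⟨_, _, hord⟩, by omega, deg_pos hn hn φ, hlam,
    fun q hq => ?_, fun q hq => ?_, exists_up' hy hy hn hn φ, exists_dn hy hn hi φ⟩,
    fun m b q hq hb => ?_, fun hge => ?_⟩
  · -- down
    obtain ⟨C, hC⟩ : ∃ C, C = C0 + 1 := ⟨_, rfl⟩
    rw [← hC]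
    have hCq1 : 1 ≤ C * q := Nat.mul_pos (by omega) hq
    have hlq1 : 1 ≤ lam * q := Nat.mul_pos hlam hq
    obtain ⟨α, hα, w, hw, hle'⟩ := hle i hi (C * q) hCq1
    have hwq : w * q0 ^ α ≠ 0 := mul_ne_zero hw (pow_ne_zero _ hq0)
    refine ⟨α, ((w * q0 ^ α) ^ (a (lam * q) * a (C * q)))⁻¹, hα, inv_ne_zero (pow_ne_zero _ hwq),
      fun Q hQ f hf hf0 => ?_⟩
    obtain ⟨f₁, hf₁, rfl⟩ := mem_im.1 hf
    have hf₁0 : f₁ ≠ 0 := fun h => hf0 (by rw [h, map_zero])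
    -- the pulled back section
    obtain ⟨F, hF⟩ : ∃ F, F = φ f₁ ^ α * (w * q0 ^ α) ^ a (C * q) := ⟨_, rfl⟩
    have hF0 : F ≠ 0 := by
      rw [hF]
      exact mul_ne_zero (pow_ne_zero _ hf0) (pow_ne_zero _ hwq)
    have hFo : ∀ R : Place ℂ K, R.ord F = α * R.ord (φ f₁) +
        a (C * q) * (R.ord w + α * R.ord q0) := by
      intro R
      rw [hF, R.ord_mul (pow_ne_zero _ hf0) (pow_ne_zero _ hwq), R.ord_pow, R.ord_pow,
        R.ord_mul hw (pow_ne_zero _ hq0), R.ord_pow]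
    have hFs : IsSec y ((α * (C * a (C * q)) * (lam * q)) • D + (α * (C * a (C * q))) • A) F := by
      intro R hR
      right
      have hRd := hR.divisorial hy hn
      obtain ⟨P, e, he, hP, hRP⟩ := exists_under hn hn φ hRd
      have h3 := hpb hRd hP he hRP hf₁ hf₁0
      have h4 := hle' R P e (l R) (g P) hR ⟨he, hRP⟩ (hl R) (hg P hP)
      have h5 := hCq R (l P) (l R) (hl P).1 (hl R)
      rw [Pi.add_apply, Pi.smul_apply, Pi.smul_apply, nsmul_eq_mul, nsmul_eq_mul,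
        hAP R (l R) hR (hl R), hFo]
      obtain ⟨E, hE⟩ : ∃ E : ℚ, E = ((R.ord (φ (g P)) : ℤ) : ℚ) := ⟨_, rfl⟩
      obtain ⟨H, hH⟩ : ∃ H : ℚ, H = ((R.ord (φ (y i / y (l P))) : ℤ) : ℚ) := ⟨_, rfl⟩
      obtain ⟨h, hh⟩ : ∃ h : ℚ, h = ((R.ord (y i / y (l R)) : ℤ) : ℚ) := ⟨_, rfl⟩
      obtain ⟨X, hX⟩ : ∃ X : ℚ, X = ((R.ord (φ f₁) : ℤ) : ℚ) := ⟨_, rfl⟩
      obtain ⟨w', hw'⟩ : ∃ w' : ℚ, w' = ((R.ord w : ℤ) : ℚ) := ⟨_, rfl⟩
      obtain ⟨z, hz⟩ : ∃ z : ℚ, z = ((R.ord q0 : ℤ) : ℚ) := ⟨_, rfl⟩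
      have h3' : -((a (C * q) : ℚ) * (((C * q : ℕ) : ℚ) * E + H)) ≤ X := by
        rw [hE, hH, hX]
        exact_mod_cast h3
      have h5' : H ≤ C0 * h + z := by
        rw [hH, hh, hz]
        exact_mod_cast h5
      rw [← hE, ← hh, ← hw'] at h4
      push_cast at h3' h4 ⊢
      rw [← hh, ← hX, ← hw', ← hz]
      have ha2 : (0 : ℚ) ≤ a (C * q) := Nat.cast_nonneg _
      have hα0 : (0 : ℚ) ≤ α := Nat.cast_nonneg _
      have hCz : (C : ℚ) = C0 + 1 := by rw [hC]; push_cast; ring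
      have h6 := mul_le_mul_of_nonneg_left h5' hα0
      have h7 : (α : ℚ) * (C * q * E + H) ≤ α * (C * (lam * q * D R + h)) + (w' + α * z) := by
        have e1 : (α : ℚ) * (C * (lam * q * D R + h)) = α * (C * q * (lam * D R)) + α * (C0 * h) +
          α * h := by rw [hCz]; ring
        rw [e1]
        nlinarith
      have h8 := mul_le_mul_of_nonneg_left h7 ha2
      have h9 := mul_le_mul_of_nonneg_left h3' hα0
      nlinarith
    have h3 := sec_ge hy hi hAP hFs hF0 (hl Q) (hg Q hQ)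
    rw [hFo] at h3
    obtain ⟨f', hf', hf'0, hf'o⟩ := hord.ex (lam * q) hlq1 Q hQ
    refine ⟨f', hf', hf'0, ?_⟩
    rw [Q.ord_inv, Q.ord_pow, hf'o, Q.ord_mul hw (pow_ne_zero _ hq0), Q.ord_pow]
    obtain ⟨e', he'⟩ : ∃ e', e' = Q.ord (g Q) := ⟨_, rfl⟩
    obtain ⟨h, hh⟩ : ∃ h, h = Q.ord (y i / y (l Q)) := ⟨_, rfl⟩
    obtain ⟨X, hX⟩ : ∃ X, X = Q.ord (φ f₁) := ⟨_, rfl⟩
    rw [← he', ← hh, ← hX] at h3
    rw [← hX, ← he', ← hh]
    have ha1 : (0 : ℤ) ≤ a (lam * q) := Int.natCast_nonneg _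
    push_cast at h3 ⊢
    have h11 := mul_le_mul_of_nonneg_left h3 ha1
    nlinarith
  · -- lin
    obtain ⟨h, hd⟩ := hlin (a q * q) (a q)
    refine ⟨h, ?_⟩
    have e1 : a q * q * s + a q = a q * (q * s + 1) := by ring
    rwa [e1] at hd
  · -- the comparison of all sections
    refine ⟨one_ne_zero, fun Q hQ f hf hf0 => ?_⟩
    obtain ⟨f', hf', hf'0, hf'o⟩ := hord.ex q hq Q hQ
    refine ⟨f', hf', hf'0, ?_⟩
    have h3 := sec_ge hy hi hAP hf hf0 (hl Q) (hg Q hQ)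
    have h0 := hpos Q
    obtain ⟨e', he'⟩ : ∃ e', e' = Q.ord (g Q) := ⟨_, rfl⟩
    obtain ⟨h, hh⟩ : ∃ h, h = Q.ord (y i / y (l Q)) := ⟨_, rfl⟩
    rw [Q.ord_one, add_zero, hf'o, ← he', ← hh]
    rw [← he', ← hh] at h3
    rw [← hh] at h0
    have h4 := mul_le_mul_of_nonneg_left h3 (show (0 : ℤ) ≤ ((a q * q : ℕ) : ℤ) from
      Int.natCast_nonneg _)
    have h5 : ((b * q : ℕ) : ℤ) ≤ m := by exact_mod_cast hb
    have h6 := mul_le_mul_of_nonneg_right h5 h0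
    have h7 := mul_le_mul_of_nonneg_left h6 (show (0 : ℤ) ≤ a q from Int.natCast_nonneg _)
    push_cast at h4 h7 ⊢
    nlinarith
  · -- up
    obtain ⟨C2, h2, hd2⟩ := exists_up' hy hy hn hn φ
    have hφi : φ (y i) ≠ 0 := by rwa [Ne, map_eq_zero]
    obtain ⟨q2, hq2⟩ : ∃ q2, q2 = y i / (φ (y i) ^ C2 * h2) := ⟨_, rfl⟩
    have hq20 : q2 ≠ 0 := by
      rw [hq2]
      exact div_ne_zero hi (mul_ne_zero (pow_ne_zero _ hφi) hd2.1)
    have hH : ∀ {Q P : Place ℂ K} {e : ℕ}, Divisorial n Q → 1 ≤ e →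
        (∀ f, Q.ord (φ f) = e * P.ord f) →
        Q.ord (y i / y (l Q)) ≤ C2 * Q.ord (φ (y i / y (l P))) + Q.ord q2 := by
      intro Q P e hQ he hQP
      obtain ⟨f', hf', hf'0, hf'o⟩ := hd2.2 Q hQ (y (l Q)) (Submodule.subset_span ⟨_, rfl⟩) (hl Q).1
      obtain ⟨f₁, hf₁, rfl⟩ := mem_im.1 hf'
      have hf₁0 : f₁ ≠ 0 := fun h => hf'0 (by rw [h, map_zero])
      have h3 := VH_ord (hl P) hf₁ hf₁0
      have h4 : Q.ord (φ (y (l P))) ≤ Q.ord (φ f₁) := by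
        rw [hQP, hQP]
        exact mul_le_mul_of_nonneg_left h3 (Int.natCast_nonneg _)
      have hφl : φ (y (l P)) ≠ 0 := by
        rw [Ne, map_eq_zero]
        exact (hl P).1
      rw [map_div₀, Q.ord_div hφi hφl, Q.ord_div hi (hl Q).1, hq2,
        Q.ord_div hi (mul_ne_zero (pow_ne_zero _ hφi) hd2.1),
        Q.ord_mul (pow_ne_zero _ hφi) hd2.1, Q.ord_pow]
      have h5 := mul_le_mul_of_nonneg_left h4 (show (0 : ℤ) ≤ C2 from Int.natCast_nonneg _)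
      push_cast at hf'o
      nlinarith
    obtain ⟨C₁, hC₁⟩ : ∃ C₁, C₁ = 2 * C2 + 2 := ⟨_, rfl⟩
    refine ⟨C₁, by omega, fun q hq => ?_⟩
    have hCq1 : 1 ≤ C₁ * q := Nat.mul_pos (by omega) hq
    obtain ⟨α, hα, w, hw, hge'⟩ := hge i hi (C₁ * q) hCq1
    obtain ⟨q', hq'⟩ : ∃ q', q' = C₁ * (lam * q) := ⟨_, rfl⟩
    rw [← hq']
    have hwq : w * q2 ^ (2 * α) ≠ 0 := mul_ne_zero hw (pow_ne_zero _ hq20)
    refine ⟨α, ((w * q2 ^ (2 * α)) ^ (a q * a q'))⁻¹, hα, inv_ne_zero (pow_ne_zero _ hwq),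
      fun Q hQ f hf hf0 => ?_⟩
    obtain ⟨P, e, he, hP, hQP⟩ := exists_under hn hn φ hQ
    have h3 := sec_ge hy hi hAP hf hf0 (hl Q) (hg Q hQ)
    have h4 := hge' Q P e (l Q) (g Q) (g P) hQ ⟨he, hQP⟩ (hl Q) (hg Q hQ) (hg P hP)
    have h5 := hH (P := P) hQ he hQP
    have h0 : 0 ≤ Q.ord (φ (y i / y (l P))) := by
      rw [hQP]
      exact mul_nonneg (Int.natCast_nonneg _) (hpos P)
    obtain ⟨f', hf', hf'0, hf'o⟩ := hord.ex q hq P hP
    refine ⟨φ f', ⟨f', hf', rfl⟩, by rwa [Ne, map_eq_zero], ?_⟩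
    have h6 : Q.ord (φ f') = -((a q : ℤ) * (q * Q.ord (φ (g P)) + Q.ord (φ (y i / y (l P))))) := by
      rw [hQP, hQP, hQP, hf'o]
      ring
    rw [Q.ord_inv, Q.ord_pow, h6, Q.ord_mul hw (pow_ne_zero _ hq20), Q.ord_pow]
    obtain ⟨E, hE⟩ : ∃ E, E = Q.ord (φ (g P)) := ⟨_, rfl⟩
    obtain ⟨H, hH'⟩ : ∃ H, H = Q.ord (φ (y i / y (l P))) := ⟨_, rfl⟩
    obtain ⟨e', he'⟩ : ∃ e', e' = Q.ord (g Q) := ⟨_, rfl⟩
    obtain ⟨h, hh⟩ : ∃ h, h = Q.ord (y i / y (l Q)) := ⟨_, rfl⟩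
    rw [← he', ← hh] at h3
    rw [← hE, ← he', ← hh] at h4
    rw [← hH', ← hh] at h5
    rw [← hH'] at h0
    rw [← hE, ← hH']
    have ha1 : (0 : ℤ) ≤ a q := Int.natCast_nonneg _
    have ha2 : (0 : ℤ) ≤ a q' := Int.natCast_nonneg _
    have hα0 : (0 : ℤ) ≤ α := Int.natCast_nonneg _
    have hCz : (C₁ : ℤ) = 2 * C2 + 2 := by rw [hC₁]; push_cast; ring
    have hqz : (q' : ℤ) = C₁ * (lam * q) := by rw [hq']; push_cast; ring
    have h7 := mul_le_mul_of_nonneg_left h5 hα0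
    have h8 := mul_nonneg hα0 h0
    push_cast at h3 h4 ⊢
    rw [hqz] at h3
    have h9 : (α : ℤ) * (C₁ * (lam * q) * e' + h) ≤
        α * (C₁ * (q * E + H)) + (Q.ord w + 2 * α * Q.ord q2) := by
      have e1 : (α : ℤ) * (C₁ * (lam * q) * e' + h) = α * (C₁ * q * (lam * e')) + α * h := by ring
      have e2 : (α : ℤ) * (C₁ * (q * E + H)) = α * (C₁ * q * E) + (2 * C2 + 2) * (α * H) := by
        rw [← hCz]; ring
      have e3 : (α : ℤ) * (C₁ * q * (lam * e')) ≤ α * (C₁ * q * E) + α * h + Q.ord w := by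
        refine h4.trans (le_of_eq ?_)
        ring
      have e4 : (α : ℤ) * h ≤ C2 * (α * H) + α * Q.ord q2 := by
        refine h7.trans (le_of_eq ?_)
        ring
      rw [e1, e2]
      linarith
    have h10 := mul_le_mul_of_nonneg_left h9 ha2
    have h11 := mul_le_mul_of_nonneg_left h3 hα0
    have h12 : -((a q' : ℤ) * (α * (C₁ * (q * E + H)) + (Q.ord w + 2 * α * Q.ord q2))) ≤
        α * Q.ord f := by
      refine le_trans ?_ h11
      have e1 : (α : ℤ) * -((a q' : ℤ) * (C₁ * (lam * q)) * e' + a q' * h) =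
          -((a q' : ℤ) * (α * (C₁ * (lam * q) * e' + h))) := by ring
      rw [e1]
      linarith
    have h13 := mul_le_mul_of_nonneg_left h12 ha1
    refine le_trans (le_of_eq ?_) (h13.trans (le_of_eq ?_)) <;> ring

end

end Pool.Agent.T2H06.DYL
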