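import Pool.Agent.T2H06.DYR.Aff
import Pool.Agent.T2H06.DYR.Ext
import Pool.Agent.T2H06.DYN.Lim

/-!
Limits of intersection numbers of linear systems along the iterates of an embedding, for linear
systems whose classes are multiplied by `lam`.
-/

set_option autoImplicit false
set_option linter.overlappingInstances false
set_option linter.unusedSectionVars false
set_option linter.unusedVariables false

open Filter Topology FF Module IntermediateField Pool.Agent.R887 Pool.Agent.W602.GT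
open Pool.Agent.T2H06.DYN (MM MM_dom MM_dom_rep MM_four Dom)
open Pool.Agent.T2H06.DYR (im mem_im im_fg im_im im_one MM_map exists_under dom_map dom_trans OrdF gam
  gam_ge gam_int)

namespace Pool.Agent.T2H06.DYL

/-- a family of linear systems `V q`, dominated by a linear system `H`, and its behaviour under an
embedding -/
structure FamL {K : Type} [Field K] [Algebra ℂ K] (n : ℕ) (φ : K →ₐ[ℂ] K)
    (H : Submodule ℂ K) (V : ℕ → Submodule ℂ K) (a : ℕ → ℕ) (M β C lam : ℕ) : Prop where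
  trdeg : Algebra.trdeg ℂ K = n
  fgH : H.FG
  ord : ∃ e h, OrdF n V a e h
  C1 : 1 ≤ C
  deg : 1 ≤ mapDegree φ
  lam1 : 1 ≤ lam
  down : ∀ q, 1 ≤ q → ∃ (α : ℕ) (h : K), 1 ≤ α ∧
    Dom n (im φ (V (C * q))) (V (lam * q)) (α * a (lam * q)) (α * (C * a (C * q))) h
  lin : ∀ q, 1 ≤ q → ∃ h, Dom n (V q) H 1 (a q * (q * M + β)) h
  up : ∃ (C' : ℕ) (h : K), Dom n H (im φ H) 1 C' h
  dn : ∃ (C' : ℕ) (h : K), Dom n (im φ H) H 1 C' h

section fam

variable {K : Type} [Field K] [Algebra ℂ K] [Algebra.EssFiniteType ℂ K] {n : ℕ} {φ : K →ₐ[ℂ] K}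
  {H : Submodule ℂ K} {V : ℕ → Submodule ℂ K} {a : ℕ → ℕ} {M β C lam : ℕ}

/-- the translates of `H` -/
def AA (φ : K →ₐ[ℂ] K) (H : Submodule ℂ K) (t : ℕ) : Submodule ℂ K := im (φ ^ t) H

/-- the translates of `V` -/
def UT (φ : K →ₐ[ℂ] K) (V : ℕ → Submodule ℂ K) (τ q : ℕ) : Submodule ℂ K := im (φ ^ τ) (V q)

theorem AA_zero : AA φ H 0 = H := by
  unfold AA
  rw [pow_zero, im_one]

theorem AA_succ (t : ℕ) : im φ (AA φ H t) = AA φ H (t + 1) := by
  unfold AA
  rw [im_im, ← pow_succ']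

theorem UT_succ (τ q : ℕ) : im φ (UT φ V τ q) = UT φ V (τ + 1) q := by
  unfold UT
  rw [im_im, ← pow_succ']

theorem UT_succ' (τ q : ℕ) : UT φ V (τ + 1) q = im (φ ^ τ) (im φ (V q)) := by
  unfold UT
  rw [im_im, ← pow_succ]

theorem AA_fg (hF : FamL n φ H V a M β C lam) (t : ℕ) : (AA φ H t).FG := im_fg hF.fgH

theorem map_AA_fg (hF : FamL n φ H V a M β C lam) (s : Multiset ℕ) : ∀ U ∈ s.map (AA φ H), U.FG := by
  intro U hU
  obtain ⟨t, -, rfl⟩ := Multiset.mem_map.1 hU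
  exact AA_fg hF t

theorem V_fg (hF : FamL n φ H V a M β C lam) {q : ℕ} (hq : 1 ≤ q) : (V q).FG := by
  obtain ⟨e, h, ho⟩ := hF.ord
  exact ho.fg q hq

theorem a_pos (hF : FamL n φ H V a M β C lam) {q : ℕ} (hq : 1 ≤ q) : 1 ≤ a q := by
  obtain ⟨e, h, ho⟩ := hF.ord
  exact ho.pos q hq

theorem UT_fg (hF : FamL n φ H V a M β C lam) (τ : ℕ) {q : ℕ} (hq : 1 ≤ q) : (UT φ V τ q).FG :=
  im_fg (V_fg hF hq)

theorem rep_fg (hF : FamL n φ H V a M β C lam) (τ : ℕ) {q : ℕ} (hq : 1 ≤ q) (i : ℕ)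
    (s : Multiset ℕ) : ∀ U ∈ Multiset.replicate i (UT φ V τ q) + s.map (AA φ H), U.FG := by
  intro U hU
  rcases Multiset.mem_add.1 hU with h1 | h1
  · rw [Multiset.eq_of_mem_replicate h1]
    exact UT_fg hF τ hq
  · exact map_AA_fg hF s U h1

theorem UT_ord (hF : FamL n φ H V a M β C lam) (τ : ℕ) : ∃ e h, OrdF n (UT φ V τ) a e h := by
  obtain ⟨e, h, ho⟩ := hF.ord
  exact ho.map hF.trdeg (φ ^ τ)

/-- the intersection numbers -/
noncomputable def NN (φ : K →ₐ[ℂ] K) (H : Submodule ℂ K) (V : ℕ → Submodule ℂ K) (τ i q : ℕ)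
    (s : Multiset ℕ) : ℕ := MM (Multiset.replicate i (UT φ V τ q) + s.map (AA φ H))

/-- the normalised intersection numbers -/
noncomputable def QQ (φ : K →ₐ[ℂ] K) (H : Submodule ℂ K) (V : ℕ → Submodule ℂ K) (a : ℕ → ℕ)
    (τ i : ℕ) (s : Multiset ℕ) (q : ℕ) : ℝ := (NN φ H V τ i q s : ℝ) / ((a q : ℝ) * q) ^ i

/-- their limits -/
noncomputable def GT (φ : K →ₐ[ℂ] K) (H : Submodule ℂ K) (V : ℕ → Submodule ℂ K) (a : ℕ → ℕ)
    (τ i : ℕ) (s : Multiset ℕ) : ℝ := gam (UT φ V τ) a i (s.map (AA φ H))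

theorem GT_tendsto (hF : FamL n φ H V a M β C lam) (τ : ℕ) {i : ℕ} {s : Multiset ℕ}
    (h : i + s.card = n) : Tendsto (QQ φ H V a τ i s) atTop (𝓝 (GT φ H V a τ i s)) := by
  obtain ⟨e, h', ho⟩ := UT_ord hF τ
  exact ho.tendsto hF.trdeg i (by rw [Multiset.card_map]; exact h) (map_AA_fg hF s)

theorem QQ_nonneg {τ i : ℕ} {s : Multiset ℕ} (q : ℕ) : 0 ≤ QQ φ H V a τ i s q := by
  unfold QQ
  positivity

theorem GT_nonneg (hF : FamL n φ H V a M β C lam) (τ : ℕ) {i : ℕ} {s : Multiset ℕ}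
    (h : i + s.card = n) : 0 ≤ GT φ H V a τ i s :=
  ge_of_tendsto' (GT_tendsto hF τ h) fun q => QQ_nonneg q

/-- translation -/
theorem GT_trans (hF : FamL n φ H V a M β C lam) (τ : ℕ) {i : ℕ} {s : Multiset ℕ}
    (h : i + s.card = n) : GT φ H V a (τ + 1) i (s.map (fun x => x + 1)) =
      mapDegree φ * GT φ H V a τ i s := by
  have h' : i + (s.map (fun x => x + 1)).card = n := by rw [Multiset.card_map, h]
  refine tendsto_nhds_unique (GT_tendsto hF (τ + 1) h')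
    (((GT_tendsto hF τ h).const_mul (mapDegree φ : ℝ)).congr' ?_)
  filter_upwards [eventually_ge_atTop 1] with q hq
  have hc : Algebra.trdeg ℂ K = (Multiset.replicate i (UT φ V τ q) + s.map (AA φ H)).card := by
    rw [Multiset.card_add, Multiset.card_replicate, Multiset.card_map, h]
    exact hF.trdeg
  have h1 := MM_map φ hc hc (rep_fg hF τ hq i s)
  have h2 : (Multiset.replicate i (UT φ V τ q) + s.map (AA φ H)).map (im φ) =
      Multiset.replicate i (UT φ V (τ + 1) q) + (s.map (fun x => x + 1)).map (AA φ H) := by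
    rw [Multiset.map_add, Multiset.map_replicate, Multiset.map_map, Multiset.map_map, UT_succ]
    congr 1
    refine Multiset.map_congr rfl fun x _ => ?_
    rw [Function.comp_apply, Function.comp_apply, AA_succ]
  rw [h2] at h1
  unfold QQ NN
  rw [h1]
  push_cast
  ring

/-- the limits decrease along the iterates -/
theorem GT_anti (hF : FamL n φ H V a M β C lam) (τ : ℕ) {i : ℕ} {s : Multiset ℕ}
    (h : i + s.card = n) : GT φ H V a (τ + 1) i s ≤ (lam : ℝ) ^ i * GT φ H V a τ i s := by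
  have hC := hF.C1
  have hl := hF.lam1
  have hsub : ∀ {c : ℕ}, 1 ≤ c → Tendsto (fun q : ℕ => c * q) atTop atTop := fun {c} hc =>
    tendsto_atTop_mono (fun q => by
      simp only [id_eq]
      exact Nat.le_mul_of_pos_left q hc) tendsto_id
  refine le_of_tendsto_of_tendsto ((GT_tendsto hF (τ + 1) h).comp (hsub hC))
    (((GT_tendsto hF τ h).comp (hsub hl)).const_mul ((lam : ℝ) ^ i)) ?_
  filter_upwards [eventually_ge_atTop 1] with q hq
  obtain ⟨α, h0, hα, hd⟩ := hF.down q hq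
  have hd' := dom_map hF.trdeg hF.trdeg (φ ^ τ) hd
  rw [← UT_succ'] at hd'
  have hCq : 1 ≤ C * q := Nat.mul_pos hC hq
  have hlq : 1 ≤ lam * q := Nat.mul_pos hl hq
  have h1 := MM_dom_rep hF.trdeg (UT_fg hF (τ + 1) hCq) (UT_fg hF τ hlq) hd' i
    (R := s.map (AA φ H)) (by rw [Multiset.card_map, h]) (map_AA_fg hF s)
  simp only [Function.comp_apply]
  unfold QQ NN
  have ha1 : (0 : ℝ) < a (lam * q) := by exact_mod_cast a_pos hF hlq
  have ha2 : (0 : ℝ) < a (C * q) := by exact_mod_cast a_pos hF hCq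
  have hq0 : (0 : ℝ) < q := by exact_mod_cast hq
  have hC0 : (0 : ℝ) < C := by exact_mod_cast hC
  have hl0 : (0 : ℝ) < lam := by exact_mod_cast hl
  have hα0 : (0 : ℝ) < α := by exact_mod_cast hα
  obtain ⟨X, hX⟩ : ∃ X : ℝ, X = (MM (Multiset.replicate i (UT φ V (τ + 1) (C * q)) +
      s.map (AA φ H)) : ℝ) := ⟨_, rfl⟩
  obtain ⟨Y, hY⟩ : ∃ Y : ℝ, Y = (MM (Multiset.replicate i (UT φ V τ (lam * q)) +
      s.map (AA φ H)) : ℝ) := ⟨_, rfl⟩
  have h2 : ((α : ℝ) * a (lam * q)) ^ i * X ≤ ((α : ℝ) * ((C : ℝ) * a (C * q))) ^ i * Y := by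
    rw [hX, hY]
    exact_mod_cast h1
  rw [← hX, ← hY, mul_pow, mul_pow, mul_assoc, mul_assoc] at *
  have h3 := le_of_mul_le_mul_left h2 (show (0 : ℝ) < (α : ℝ) ^ i by positivity)
  push_cast
  rw [div_le_iff₀ (by positivity), ← mul_div_assoc, div_mul_eq_mul_div, le_div_iff₀ (by positivity)]
  have h4 := mul_le_mul_of_nonneg_right h3 (show (0 : ℝ) ≤ (lam : ℝ) ^ i * (q : ℝ) ^ i by positivity)
  refine le_trans (le_of_eq ?_) (h4.trans (le_of_eq ?_))
  · simp only [mul_pow]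
    ring
  · simp only [mul_pow]
    ring

/-- the limits increase along the iterates, if the class is exactly multiplied by `lam` -/
theorem GT_mono (hF : FamL n φ H V a M β C lam) {C₁ : ℕ} (hC₁ : 1 ≤ C₁)
    (hup : ∀ q, 1 ≤ q → ∃ (α : ℕ) (h : K), 1 ≤ α ∧ Dom n (V (C₁ * (lam * q))) (im φ (V q))
      (α * a q) (α * (C₁ * a (C₁ * (lam * q)))) h) (τ : ℕ) {i : ℕ} {s : Multiset ℕ}
    (h : i + s.card = n) : (lam : ℝ) ^ i * GT φ H V a τ i s ≤ GT φ H V a (τ + 1) i s := by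
  have hl := hF.lam1
  have hsub : Tendsto (fun q : ℕ => C₁ * (lam * q)) atTop atTop :=
    tendsto_atTop_mono (fun q => by
      simp only [id_eq]
      exact (Nat.le_mul_of_pos_left q hl).trans (Nat.le_mul_of_pos_left _ hC₁)) tendsto_id
  refine le_of_tendsto_of_tendsto (((GT_tendsto hF τ h).comp hsub).const_mul ((lam : ℝ) ^ i))
    (GT_tendsto hF (τ + 1) h) ?_
  filter_upwards [eventually_ge_atTop 1] with q hq
  obtain ⟨α, h0, hα, hd⟩ := hup q hq
  have hd' := dom_map hF.trdeg hF.trdeg (φ ^ τ) hd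
  rw [← UT_succ'] at hd'
  have hCq : 1 ≤ C₁ * (lam * q) := Nat.mul_pos hC₁ (Nat.mul_pos hl hq)
  have h1 := MM_dom_rep hF.trdeg (UT_fg hF τ hCq) (UT_fg hF (τ + 1) hq) hd' i
    (R := s.map (AA φ H)) (by rw [Multiset.card_map, h]) (map_AA_fg hF s)
  simp only [Function.comp_apply]
  unfold QQ NN
  have ha1 : (0 : ℝ) < a q := by exact_mod_cast a_pos hF hq
  have ha2 : (0 : ℝ) < a (C₁ * (lam * q)) := by exact_mod_cast a_pos hF hCq
  have hq0 : (0 : ℝ) < q := by exact_mod_cast hq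
  have hC0 : (0 : ℝ) < C₁ := by exact_mod_cast hC₁
  have hl0 : (0 : ℝ) < lam := by exact_mod_cast hl
  have hα0 : (0 : ℝ) < α := by exact_mod_cast hα
  obtain ⟨X, hX⟩ : ∃ X : ℝ, X = (MM (Multiset.replicate i (UT φ V τ (C₁ * (lam * q))) +
      s.map (AA φ H)) : ℝ) := ⟨_, rfl⟩
  obtain ⟨Y, hY⟩ : ∃ Y : ℝ, Y = (MM (Multiset.replicate i (UT φ V (τ + 1) q) +
      s.map (AA φ H)) : ℝ) := ⟨_, rfl⟩
  have h2 : ((α : ℝ) * a q) ^ i * X ≤ ((α : ℝ) * ((C₁ : ℝ) * a (C₁ * (lam * q)))) ^ i * Y := by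
    rw [hX, hY]
    exact_mod_cast h1
  rw [← hX, ← hY]
  rw [mul_pow, mul_pow (α : ℝ), mul_assoc, mul_assoc] at h2
  have h3 := le_of_mul_le_mul_left h2 (show (0 : ℝ) < (α : ℝ) ^ i by positivity)
  push_cast
  rw [← mul_div_assoc, div_le_iff₀ (by positivity), div_mul_eq_mul_div, le_div_iff₀ (by positivity)]
  have h4 := mul_le_mul_of_nonneg_right h3 (show (0 : ℝ) ≤ (lam : ℝ) ^ i * (q : ℝ) ^ i by positivity)
  refine le_trans (le_of_eq ?_) (h4.trans (le_of_eq ?_))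
  · simp only [mul_pow]
    ring
  · simp only [mul_pow]
    ring

theorem GT_four (hF : FamL n φ H V a M β C lam) (τ : ℕ) {i : ℕ} {s : Multiset ℕ}
    (h : i + s.card + 2 = n) (b c d e : ℕ) :
    GT φ H V a τ i (b ::ₘ c ::ₘ s) * GT φ H V a τ i (d ::ₘ e ::ₘ s) ≤
      2 * (GT φ H V a τ i (b ::ₘ d ::ₘ s) * GT φ H V a τ i (c ::ₘ e ::ₘ s) +
        GT φ H V a τ i (b ::ₘ e ::ₘ s) * GT φ H V a τ i (c ::ₘ d ::ₘ s)) := by
  have hc : ∀ x y : ℕ, i + (x ::ₘ y ::ₘ s).card = n := fun x y => by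
    rw [Multiset.card_cons, Multiset.card_cons]; omega
  refine le_of_tendsto_of_tendsto ((GT_tendsto hF τ (hc b c)).mul (GT_tendsto hF τ (hc d e)))
    ((((GT_tendsto hF τ (hc b d)).mul (GT_tendsto hF τ (hc c e))).add
      ((GT_tendsto hF τ (hc b e)).mul (GT_tendsto hF τ (hc c d)))).const_mul 2) ?_
  filter_upwards [eventually_ge_atTop 1] with q hq
  have hNN : ∀ x y : ℕ, NN φ H V τ i q (x ::ₘ y ::ₘ s) =
      MM (AA φ H x ::ₘ AA φ H y ::ₘ (Multiset.replicate i (UT φ V τ q) + s.map (AA φ H))) := by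
    intro x y
    unfold NN
    rw [Multiset.map_cons, Multiset.map_cons, Multiset.add_cons, Multiset.add_cons]
  have h1 := MM_four (L := Multiset.replicate i (UT φ V τ q) + s.map (AA φ H)) (by
    rw [Multiset.card_add, Multiset.card_replicate, Multiset.card_map, h]
    exact hF.trdeg) (rep_fg hF τ hq i s) (AA_fg hF b) (AA_fg hF c) (AA_fg hF d) (AA_fg hF e)
  simp only [← hNN] at h1
  unfold QQ
  have ha1 : (0 : ℝ) < a q := by exact_mod_cast a_pos hF hq
  have hq0 : (0 : ℝ) < q := by exact_mod_cast hq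
  have hm' : (0 : ℝ) < ((a q : ℝ) * q) ^ i * ((a q : ℝ) * q) ^ i := by positivity
  rw [div_mul_div_comm, div_mul_div_comm, div_mul_div_comm, ← add_div, ← mul_div_assoc]
  refine div_le_div_of_nonneg_right ?_ hm'.le
  exact_mod_cast h1

theorem GT_mixed (hF : FamL n φ H V a M β C lam) (τ : ℕ) {i : ℕ} {s : Multiset ℕ}
    (h : i + s.card + 2 = n) (b c d : ℕ) :
    GT φ H V a τ i (b ::ₘ c ::ₘ s) * GT φ H V a τ (i + 1) (d ::ₘ s) ≤
      2 * (GT φ H V a τ i (b ::ₘ d ::ₘ s) * GT φ H V a τ (i + 1) (c ::ₘ s) +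
        GT φ H V a τ i (c ::ₘ d ::ₘ s) * GT φ H V a τ (i + 1) (b ::ₘ s)) := by
  have hc : ∀ x y : ℕ, i + (x ::ₘ y ::ₘ s).card = n := fun x y => by
    rw [Multiset.card_cons, Multiset.card_cons]; omega
  have hc' : ∀ x : ℕ, i + 1 + (x ::ₘ s).card = n := fun x => by
    rw [Multiset.card_cons]; omega
  refine le_of_tendsto_of_tendsto ((GT_tendsto hF τ (hc b c)).mul (GT_tendsto hF τ (hc' d)))
    ((((GT_tendsto hF τ (hc b d)).mul (GT_tendsto hF τ (hc' c))).add
      ((GT_tendsto hF τ (hc c d)).mul (GT_tendsto hF τ (hc' b)))).const_mul 2) ?_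
  filter_upwards [eventually_ge_atTop 1] with q hq
  have hNN : ∀ x y : ℕ, NN φ H V τ i q (x ::ₘ y ::ₘ s) =
      MM (AA φ H x ::ₘ AA φ H y ::ₘ (Multiset.replicate i (UT φ V τ q) + s.map (AA φ H))) := by
    intro x y
    unfold NN
    rw [Multiset.map_cons, Multiset.map_cons, Multiset.add_cons, Multiset.add_cons]
  have hNN' : ∀ x : ℕ, NN φ H V τ (i + 1) q (x ::ₘ s) =
      MM (AA φ H x ::ₘ UT φ V τ q ::ₘ (Multiset.replicate i (UT φ V τ q) + s.map (AA φ H))) := by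
    intro x
    unfold NN
    rw [Multiset.map_cons, Multiset.add_cons, Multiset.replicate_succ, Multiset.cons_add]
  have h1 := MM_four (L := Multiset.replicate i (UT φ V τ q) + s.map (AA φ H)) (by
    rw [Multiset.card_add, Multiset.card_replicate, Multiset.card_map, h]
    exact hF.trdeg) (rep_fg hF τ hq i s) (AA_fg hF b) (AA_fg hF c) (AA_fg hF d) (UT_fg hF τ hq)
  simp only [← hNN, ← hNN'] at h1
  unfold QQ
  have ha1 : (0 : ℝ) < a q := by exact_mod_cast a_pos hF hq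
  have hq0 : (0 : ℝ) < q := by exact_mod_cast hq
  have hm' : (0 : ℝ) < ((a q : ℝ) * q) ^ i * ((a q : ℝ) * q) ^ (i + 1) := by positivity
  rw [div_mul_div_comm, div_mul_div_comm, div_mul_div_comm, ← add_div, ← mul_div_assoc]
  refine div_le_div_of_nonneg_right ?_ hm'.le
  have h2 : (NN φ H V τ i q (b ::ₘ c ::ₘ s) : ℝ) * NN φ H V τ (i + 1) q (d ::ₘ s) ≤
      2 * ((NN φ H V τ i q (b ::ₘ d ::ₘ s) : ℝ) * NN φ H V τ (i + 1) q (c ::ₘ s) +
        NN φ H V τ (i + 1) q (b ::ₘ s) * NN φ H V τ i q (c ::ₘ d ::ₘ s)) := by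
    exact_mod_cast h1
  linarith

/-- one translate of `V` is replaced by a translate of `H` -/
theorem MM_lin (hF : FamL n φ H V a M β C lam) (t σ : ℕ) : ∀ {q : ℕ}, 1 ≤ q →
    ∀ {L : Multiset (Submodule ℂ K)}, L.card + 1 = n → (∀ U ∈ L, U.FG) →
    MM (UT φ V (t + σ) (C ^ σ * q) ::ₘ L) ≤
      C ^ σ * a (C ^ σ * q) * (lam ^ σ * q * M + β) * MM (AA φ H t ::ₘ L) := by
  have hC := hF.C1
  have hl := hF.lam1
  -- the first step
  have key : ∀ {q : ℕ}, 1 ≤ q → ∀ {L : Multiset (Submodule ℂ K)}, L.card + 1 = n →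
      (∀ U ∈ L, U.FG) → a (lam ^ σ * q) * MM (UT φ V (t + σ) (C ^ σ * q) ::ₘ L) ≤
        C ^ σ * a (C ^ σ * q) * MM (UT φ V t (lam ^ σ * q) ::ₘ L) := by
    induction σ with
    | zero =>
      intro q hq L hc hL
      simp only [pow_zero, one_mul, add_zero]
      exact le_rfl
    | succ σ ih =>
      intro q hq L hc hL
      have hCq : 1 ≤ C ^ σ * q := Nat.mul_pos (pow_pos hC σ) hq
      have hCq' : 1 ≤ C * (C ^ σ * q) := Nat.mul_pos hC hCq
      have hlq : 1 ≤ lam * q := Nat.mul_pos hl hq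
      have hlCq : 1 ≤ lam * (C ^ σ * q) := Nat.mul_pos hl hCq
      obtain ⟨α, h0, hα, hd⟩ := hF.down _ hCq
      have hd' := dom_map hF.trdeg hF.trdeg (φ ^ (t + σ)) hd
      rw [← UT_succ'] at hd'
      have h1 := MM_dom hF.trdeg hc hL (UT_fg hF (t + σ + 1) hCq') (UT_fg hF (t + σ) hlCq) hd'
      have h2 := ih hlq hc hL
      have e1 : C ^ (σ + 1) * q = C * (C ^ σ * q) := by ring
      have e2 : t + (σ + 1) = t + σ + 1 := rfl
      have e3 : lam ^ (σ + 1) * q = lam ^ σ * (lam * q) := by ring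
      have e4 : lam * (C ^ σ * q) = C ^ σ * (lam * q) := by ring
      rw [e4] at h1
      rw [e1, e2, e3]
      have ha : 0 < α * a (C ^ σ * (lam * q)) :=
        Nat.mul_pos hα (a_pos hF (Nat.mul_pos (pow_pos hC σ) hlq))
      refine Nat.le_of_mul_le_mul_left ?_ ha
      calc α * a (C ^ σ * (lam * q)) * (a (lam ^ σ * (lam * q)) *
            MM (UT φ V (t + σ + 1) (C * (C ^ σ * q)) ::ₘ L))
          = a (lam ^ σ * (lam * q)) * (α * a (C ^ σ * (lam * q)) *
            MM (UT φ V (t + σ + 1) (C * (C ^ σ * q)) ::ₘ L)) := by ring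
        _ ≤ a (lam ^ σ * (lam * q)) * (α * (C * a (C * (C ^ σ * q))) *
            MM (UT φ V (t + σ) (C ^ σ * (lam * q)) ::ₘ L)) := Nat.mul_le_mul_left _ h1
        _ = α * (C * a (C * (C ^ σ * q))) * (a (lam ^ σ * (lam * q)) *
            MM (UT φ V (t + σ) (C ^ σ * (lam * q)) ::ₘ L)) := by ring
        _ ≤ α * (C * a (C * (C ^ σ * q))) * (C ^ σ * a (C ^ σ * (lam * q)) *
            MM (UT φ V t (lam ^ σ * (lam * q)) ::ₘ L)) := Nat.mul_le_mul_left _ h2
        _ = _ := by ring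
  intro q hq L hc hL
  have h1 := key hq hc hL
  have hlq : 1 ≤ lam ^ σ * q := Nat.mul_pos (pow_pos hl σ) hq
  obtain ⟨h0, hd⟩ := hF.lin _ hlq
  have hd' := dom_map hF.trdeg hF.trdeg (φ ^ t) hd
  have h2 := MM_dom hF.trdeg hc hL (UT_fg hF t hlq) (AA_fg hF t) hd'
  rw [one_mul] at h2
  refine Nat.le_of_mul_le_mul_left ?_ (a_pos hF hlq)
  calc a (lam ^ σ * q) * MM (UT φ V (t + σ) (C ^ σ * q) ::ₘ L)
      ≤ C ^ σ * a (C ^ σ * q) * MM (UT φ V t (lam ^ σ * q) ::ₘ L) := h1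
    _ ≤ C ^ σ * a (C ^ σ * q) * (a (lam ^ σ * q) * (lam ^ σ * q * M + β) *
        MM (AA φ H t ::ₘ L)) := Nat.mul_le_mul_left _ h2
    _ = _ := by ring

theorem GT_dom (hF : FamL n φ H V a M β C lam) (t σ : ℕ) {i : ℕ} {s : Multiset ℕ}
    (h : i + 1 + s.card = n) :
    GT φ H V a (t + σ) (i + 1) s ≤ (lam : ℝ) ^ σ * M * GT φ H V a (t + σ) i (t ::ₘ s) := by
  have hC := hF.C1
  have hl := hF.lam1
  have h' : i + (t ::ₘ s).card = n := by rw [Multiset.card_cons]; omega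
  have hCσ : 1 ≤ C ^ σ := Nat.pow_pos hC
  have hsub : Tendsto (fun q : ℕ => C ^ σ * q) atTop atTop :=
    tendsto_atTop_mono (fun q => by
      simp only [id_eq]
      exact Nat.le_mul_of_pos_left q hCσ) tendsto_id
  have hM : Tendsto (fun q : ℕ => (lam : ℝ) ^ σ * M + β / q) atTop (𝓝 ((lam : ℝ) ^ σ * M)) := by
    have := (tendsto_const_div_atTop_nhds_zero_nat (β : ℝ)).const_add ((lam : ℝ) ^ σ * M)
    rwa [add_zero] at this
  refine le_of_tendsto_of_tendsto ((GT_tendsto hF (t + σ) h).comp hsub)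
    (hM.mul ((GT_tendsto hF (t + σ) h').comp hsub)) ?_
  filter_upwards [eventually_ge_atTop 1] with q hq
  have hCq : 1 ≤ C ^ σ * q := Nat.mul_pos hCσ hq
  have h1 := MM_lin hF t σ hq (L := Multiset.replicate i (UT φ V (t + σ) (C ^ σ * q)) +
    s.map (AA φ H)) (by
      rw [Multiset.card_add, Multiset.card_replicate, Multiset.card_map]; omega)
    (rep_fg hF (t + σ) hCq i s)
  simp only [Function.comp_apply]
  unfold QQ
  have e1 : NN φ H V (t + σ) (i + 1) (C ^ σ * q) s = MM (UT φ V (t + σ) (C ^ σ * q) ::ₘ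
      (Multiset.replicate i (UT φ V (t + σ) (C ^ σ * q)) + s.map (AA φ H))) := by
    unfold NN
    rw [Multiset.replicate_succ, Multiset.cons_add]
  have e2 : NN φ H V (t + σ) i (C ^ σ * q) (t ::ₘ s) = MM (AA φ H t ::ₘ
      (Multiset.replicate i (UT φ V (t + σ) (C ^ σ * q)) + s.map (AA φ H))) := by
    unfold NN
    rw [Multiset.map_cons, Multiset.add_cons]
  rw [← e1, ← e2] at h1
  have ha2 : (0 : ℝ) < a (C ^ σ * q) := by exact_mod_cast a_pos hF hCq
  have hq0 : (0 : ℝ) < q := by exact_mod_cast hq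
  have hC0 : (0 : ℝ) < (C : ℝ) ^ σ := by exact_mod_cast hCσ
  have h2 : (NN φ H V (t + σ) (i + 1) (C ^ σ * q) s : ℝ) ≤ (C : ℝ) ^ σ * a (C ^ σ * q) *
      ((lam : ℝ) ^ σ * q * M + β) * NN φ H V (t + σ) i (C ^ σ * q) (t ::ₘ s) := by
    exact_mod_cast h1
  push_cast
  rw [pow_succ, div_le_iff₀ (by positivity)]
  refine h2.trans (le_of_eq ?_)
  field_simp

/-- translates are replaced -/
theorem GT_hyp (hF : FamL n φ H V a M β C lam) (τ : ℕ) {t t' : ℕ} {C' : ℕ} {h₀ : K}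
    (hd : Dom n (AA φ H t) (AA φ H t') 1 C' h₀) {i k : ℕ} {s : Multiset ℕ}
    (h : i + (k + s.card) = n) :
    GT φ H V a τ i (Multiset.replicate k t + s) ≤
      (C' : ℝ) ^ k * GT φ H V a τ i (Multiset.replicate k t' + s) := by
  have hc : ∀ t, i + (Multiset.replicate k t + s).card = n := fun t => by
    rw [Multiset.card_add, Multiset.card_replicate, h]
  refine le_of_tendsto_of_tendsto (GT_tendsto hF τ (hc t))
    ((GT_tendsto hF τ (hc t')).const_mul _) ?_
  filter_upwards [eventually_ge_atTop 1] with q hq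
  have h1 := MM_dom_rep hF.trdeg (AA_fg hF t) (AA_fg hF t') hd k
    (R := Multiset.replicate i (UT φ V τ q) + s.map (AA φ H)) (by
      rw [Multiset.card_add, Multiset.card_replicate, Multiset.card_map]; omega)
    (rep_fg hF τ hq i s)
  rw [one_pow, one_mul] at h1
  have e1 : ∀ t, NN φ H V τ i q (Multiset.replicate k t + s) = MM (Multiset.replicate k (AA φ H t) +
      (Multiset.replicate i (UT φ V τ q) + s.map (AA φ H))) := by
    intro t
    unfold NN
    rw [Multiset.map_add, Multiset.map_replicate, add_left_comm]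
  rw [← e1, ← e1] at h1
  unfold QQ
  have h2 : (NN φ H V τ i q (Multiset.replicate k t + s) : ℝ) ≤ (C' : ℝ) ^ k *
      NN φ H V τ i q (Multiset.replicate k t' + s) := by exact_mod_cast h1
  rw [← mul_div_assoc]
  exact div_le_div_of_nonneg_right h2 (by positivity)

/-- iterated domination of translates -/
theorem dom_up (hF : FamL n φ H V a M β C lam) (t : ℕ) :
    ∃ (C' : ℕ) (h : K), Dom n (AA φ H 0) (AA φ H t) 1 C' h := by
  induction t with
  | zero =>
    refine ⟨1, 1, one_ne_zero, fun P _ f hf hf0 => ⟨f, hf, hf0, ?_⟩⟩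
    rw [P.ord_one, add_zero]
  | succ t ih =>
    obtain ⟨C₁, h₁, hd₁⟩ := ih
    obtain ⟨C₂, h₂, hd₂⟩ := hF.up
    have h3 := dom_map hF.trdeg hF.trdeg (φ ^ t) hd₂
    have e : im (φ ^ t) (im φ H) = AA φ H (t + 1) := by
      unfold AA
      rw [im_im, ← pow_succ]
    rw [e] at h3
    have h4 := dom_trans hd₁ h3
    rw [one_mul] at h4
    exact ⟨_, _, h4⟩

theorem dom_dn (hF : FamL n φ H V a M β C lam) (t : ℕ) :
    ∃ (C' : ℕ) (h : K), Dom n (AA φ H t) (AA φ H 0) 1 C' h := by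
  induction t with
  | zero =>
    refine ⟨1, 1, one_ne_zero, fun P _ f hf hf0 => ⟨f, hf, hf0, ?_⟩⟩
    rw [P.ord_one, add_zero]
  | succ t ih =>
    obtain ⟨C₁, h₁, hd₁⟩ := ih
    obtain ⟨C₂, h₂, hd₂⟩ := hF.dn
    have h3 := dom_map hF.trdeg hF.trdeg (φ ^ t) hd₂
    have e : im (φ ^ t) (im φ H) = AA φ H (t + 1) := by
      unfold AA
      rw [im_im, ← pow_succ]
    rw [e] at h3
    have h4 := dom_trans h3 hd₁
    rw [one_mul] at h4
    exact ⟨_, _, h4⟩

/-- the numbers are positive for all iterates -/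
theorem GT_pos (hF : FamL n φ H V a M β C lam) {j : ℕ} (hj : j ≤ n)
    (hpos : 0 < GT φ H V a 0 j (Multiset.replicate (n - j) 0)) (τ : ℕ) :
    0 < GT φ H V a τ j (Multiset.replicate (n - j) 0) := by
  have hd0 : (0 : ℝ) < mapDegree φ := by exact_mod_cast hF.deg
  have h1 : ∀ τ, GT φ H V a τ j (Multiset.replicate (n - j) τ) =
      (mapDegree φ : ℝ) ^ τ * GT φ H V a 0 j (Multiset.replicate (n - j) 0) := by
    intro τ
    induction τ with
    | zero => rw [pow_zero, one_mul]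
    | succ τ ih =>
      have h2 := GT_trans hF τ (i := j) (s := Multiset.replicate (n - j) τ) (by
        rw [Multiset.card_replicate]; omega)
      rw [Multiset.map_replicate, ih] at h2
      rw [h2, pow_succ]
      ring
  obtain ⟨C', h', hd⟩ := dom_dn hF τ
  have h2 := GT_hyp hF τ hd (i := j) (k := n - j) (s := 0) (by rw [Multiset.card_zero]; omega)
  rw [add_zero, add_zero, h1] at h2
  have h3 : 0 < (mapDegree φ : ℝ) ^ τ * GT φ H V a 0 j (Multiset.replicate (n - j) 0) := by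
    positivity
  by_contra hcon
  push Not at hcon
  have h4 : (C' : ℝ) ^ (n - j) * GT φ H V a τ j (Multiset.replicate (n - j) 0) ≤ 0 :=
    mul_nonpos_of_nonneg_of_nonpos (by positivity) hcon
  linarith

end fam

end Pool.Agent.T2H06.DYL
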