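import Pool.Agent.T2H06.DYL.Defs
import Pool.Agent.T2H06.DYR.GeoT

/-!
The linear systems of the sections of `m D + b H`.
-/

set_option autoImplicit false
set_option linter.overlappingInstances false
set_option linter.unusedSectionVars false
set_option linter.unusedVariables false

open FF MvPolynomial Pool.Agent.W602.GT Pool.Agent.W603.LV Pool.Agent.W619.PQ
open Pool.Agent.Y172 Pool.Agent.Y191 Pool.Agent.R887
open Pool.Agent.T2H06.DYN (MM MM_dom MM_dom_rep MM_four Dom VH VH_fg mem_VH pen_VH exists_ord_le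
  fg_of_bound dominate' centred_of_through)

namespace Pool.Agent.T2H06.DYL

section

variable {K : Type} [Field K] [Algebra ℂ K] {N n : ℕ} {y : Fin (N + 1) → K}

theorem IsSec.zero {D : Place ℂ K → ℚ} : IsSec y D 0 := fun _ _ => Or.inl rfl

/-- the sections of `D` -/
def VF (y : Fin (N + 1) → K) (D : Place ℂ K → ℚ) : Submodule ℂ K where
  carrier := {g | IsSec y D g}
  zero_mem' := fun _ _ => Or.inl rfl
  add_mem' := by
    intro a b ha hb P hP
    by_cases hab : a + b = 0
    · exact Or.inl hab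
    right
    by_cases ha0 : a = 0
    · rw [ha0, zero_add] at hab ⊢
      exact (hb P hP).resolve_left hab
    by_cases hb0 : b = 0
    · rw [hb0, add_zero] at hab ⊢
      exact (ha P hP).resolve_left hab
    have h1 := (ha P hP).resolve_left ha0
    have h2 := (hb P hP).resolve_left hb0
    have h3 := P.ord_add ha0 hb0 hab
    rcases le_total (P.ord a) (P.ord b) with h4 | h4
    · rw [min_eq_left h4] at h3
      have h5 : (P.ord a : ℚ) ≤ P.ord (a + b) := by exact_mod_cast h3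
      linarith
    · rw [min_eq_right h4] at h3
      have h5 : (P.ord b : ℚ) ≤ P.ord (a + b) := by exact_mod_cast h3
      linarith
  smul_mem' := by
    intro c a ha P hP
    by_cases hca : c • a = 0
    · exact Or.inl hca
    right
    have hc : c ≠ 0 := fun h => hca (by rw [h, zero_smul])
    have ha0 : a ≠ 0 := fun h => hca (by rw [h, smul_zero])
    have h1 := (ha P hP).resolve_left ha0
    have hc' : algebraMap ℂ K c ≠ 0 := by rwa [Ne, map_eq_zero]
    rw [Algebra.smul_def, P.ord_mul hc' ha0, P.ord_const hc, zero_add]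
    exact h1

theorem mem_VF {D : Place ℂ K → ℚ} {g : K} : g ∈ VF y D ↔ IsSec y D g := Iff.rfl

theorem IsSec.pow {D : Place ℂ K → ℚ} {g : K} (h : IsSec y D g) (k : ℕ) :
    IsSec y (k • D) (g ^ k) := by
  intro P hP
  rcases h P hP with h1 | h1
  · rcases Nat.eq_zero_or_pos k with hk | hk
    · right
      rw [hk, pow_zero, P.ord_one, zero_smul]
      simp
    · left
      rw [h1, zero_pow hk.ne']
  · right
    rw [P.ord_pow, Pi.smul_apply, nsmul_eq_mul]
    push_cast
    have h2 := mul_le_mul_of_nonneg_left h1 (show (0 : ℚ) ≤ k from Nat.cast_nonneg k)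
    linarith

/-- the order of a section at the centre of a place at which there is a local equation -/
theorem sec_ge (hy : NormalModel y) {i : Fin (N + 1)} (hi : y i ≠ 0) {D A : Place ℂ K → ℚ}
    (hAP : ∀ P l, IsPrimeDivisor y P → Centred y l P → A P = P.ord (y i / y l)) {m b : ℕ} {f : K}
    (hf : IsSec y (m • D + b • A) f) (hf0 : f ≠ 0) {Q : Place ℂ K} {l : Fin (N + 1)}
    (hl : Centred y l Q) {g : K} (hg : LocalEquation y D Q g) :
    -((m : ℤ) * Q.ord g + b * Q.ord (y i / y l)) ≤ Q.ord f := by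
  have hyl : y i / y l ≠ 0 := div_ne_zero hi hl.1
  have h1 := reg_of_through hy (Q := Q) (f := f * g ^ m * (y i / y l) ^ b)
    (mul_ne_zero (mul_ne_zero hf0 (pow_ne_zero _ hg.1)) (pow_ne_zero _ hyl)) (by
    intro P hP ht
    have h2 := (hf P hP).resolve_left hf0
    rw [Pi.add_apply, Pi.smul_apply, Pi.smul_apply, nsmul_eq_mul, nsmul_eq_mul,
      hAP P l hP (centred_of_through hl ht), ← hg.2 P hP ht] at h2
    rw [P.ord_mul (mul_ne_zero hf0 (pow_ne_zero _ hg.1)) (pow_ne_zero _ hyl),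
      P.ord_mul hf0 (pow_ne_zero _ hg.1), P.ord_pow, P.ord_pow]
    have h3 : -((m : ℤ) * P.ord g + b * P.ord (y i / y l)) ≤ P.ord f := by exact_mod_cast h2
    linarith)
  rw [Q.ord_mul (mul_ne_zero hf0 (pow_ne_zero _ hg.1)) (pow_ne_zero _ hyl),
    Q.ord_mul hf0 (pow_ne_zero _ hg.1), Q.ord_pow, Q.ord_pow] at h1
  linarith

/-- the order of a generating section -/
theorem gen_eq (hy : NormalModel y) {i : Fin (N + 1)} (hi : y i ≠ 0) {D : Place ℂ K → ℚ}
    {m q : ℕ} {f : K} (hf0 : f ≠ 0) {Q : Place ℂ K} {l : Fin (N + 1)}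
    (hl : Centred y l Q) {g : K} (hg : LocalEquation y D Q g)
    (hf : ∀ P l, IsPrimeDivisor y P → Through y P Q → Centred y l P →
        (P.ord f : ℚ) = -(m * (q * D P + P.ord (y i / y l)))) :
    Q.ord f = -((m : ℤ) * (q * Q.ord g + Q.ord (y i / y l))) := by
  have hyl : y i / y l ≠ 0 := div_ne_zero hi hl.1
  have h1 := unit_of_through hy (Q := Q) (f := f * g ^ (m * q) * (y i / y l) ^ m)
    (mul_ne_zero (mul_ne_zero hf0 (pow_ne_zero _ hg.1)) (pow_ne_zero _ hyl)) (by
    intro P hP ht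
    have h2 := hf P l hP ht (centred_of_through hl ht)
    rw [← hg.2 P hP ht] at h2
    rw [P.ord_mul (mul_ne_zero hf0 (pow_ne_zero _ hg.1)) (pow_ne_zero _ hyl),
      P.ord_mul hf0 (pow_ne_zero _ hg.1), P.ord_pow, P.ord_pow]
    have h3 : P.ord f = -((m : ℤ) * (q * P.ord g + P.ord (y i / y l))) := by exact_mod_cast h2
    rw [h3]
    push_cast
    ring)
  rw [Q.ord_mul (mul_ne_zero hf0 (pow_ne_zero _ hg.1)) (pow_ne_zero _ hyl),
    Q.ord_mul hf0 (pow_ne_zero _ hg.1), Q.ord_pow, Q.ord_pow] at h1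
  push_cast at h1
  linarith

/-- a divisor is dominated by a multiple of a hyperplane section, up to a function -/
theorem exists_bd (hy : NormalModel y) {D A : Place ℂ K → ℚ} (hD : IsDivisor y D)
    {i : Fin (N + 1)} (hi : y i ≠ 0) (hA : Effective y A)
    (hAP : ∀ P l, IsPrimeDivisor y P → Centred y l P → A P = P.ord (y i / y l)) :
    ∃ (F : K) (s : ℕ), F ≠ 0 ∧ ∀ P, IsPrimeDivisor y P → D P ≤ P.ord F + s * A P := by
  obtain ⟨F, s, hF, h⟩ := dominate' hy (A' := fun P => max (D P) 0) ⟨fun P _ => le_max_right _ _,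
    hD.subset (by
      rintro P ⟨hP, h⟩
      refine ⟨hP, fun h0 => h ?_⟩
      change max (D P) 0 = 0
      rw [h0, max_self])⟩ hi hA hAP
  exact ⟨F, s, hF, fun P hP => (le_max_left _ _).trans (h P hP)⟩

/-- the orders of the sections at all places -/
theorem sec_bd (hy : NormalModel y) {i : Fin (N + 1)} (hi : y i ≠ 0) {D A : Place ℂ K → ℚ}
    (hAP : ∀ P l, IsPrimeDivisor y P → Centred y l P → A P = P.ord (y i / y l)) {F : K} {s : ℕ}
    (hF : F ≠ 0) (hFs : ∀ P, IsPrimeDivisor y P → D P ≤ P.ord F + s * A P) {m b : ℕ} {f : K}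
    (hf : IsSec y (m • D + b • A) f) (hf0 : f ≠ 0) {Q : Place ℂ K} {l : Fin (N + 1)}
    (hl : Centred y l Q) :
    -((m : ℤ) * Q.ord F + ((m * s + b : ℕ) : ℤ) * Q.ord (y i / y l)) ≤ Q.ord f := by
  have hyl : y i / y l ≠ 0 := div_ne_zero hi hl.1
  have h1 := reg_of_through hy (Q := Q) (f := f * F ^ m * (y i / y l) ^ (m * s + b))
    (mul_ne_zero (mul_ne_zero hf0 (pow_ne_zero _ hF)) (pow_ne_zero _ hyl)) (by
    intro P hP ht
    have h2 := (hf P hP).resolve_left hf0
    have h4 := hFs P hP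
    rw [Pi.add_apply, Pi.smul_apply, Pi.smul_apply, nsmul_eq_mul, nsmul_eq_mul] at h2
    rw [hAP P l hP (centred_of_through hl ht)] at h2 h4
    rw [P.ord_mul (mul_ne_zero hf0 (pow_ne_zero _ hF)) (pow_ne_zero _ hyl),
      P.ord_mul hf0 (pow_ne_zero _ hF), P.ord_pow, P.ord_pow]
    have h5 := mul_le_mul_of_nonneg_left h4 (show (0 : ℚ) ≤ m from Nat.cast_nonneg m)
    have h3 : (0 : ℚ) ≤ P.ord f + m * P.ord F + ((m * s + b : ℕ) : ℚ) * P.ord (y i / y l) := by
      push_cast
      nlinarith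
    exact_mod_cast h3)
  rw [Q.ord_mul (mul_ne_zero hf0 (pow_ne_zero _ hF)) (pow_ne_zero _ hyl),
    Q.ord_mul hf0 (pow_ne_zero _ hF), Q.ord_pow, Q.ord_pow] at h1
  push_cast at h1 ⊢
  linarith

/-- the sections are dominated by hyperplane sections -/
theorem exists_linF (hy : NormalModel y) {D A : Place ℂ K → ℚ} (hD : IsDivisor y D)
    {i : Fin (N + 1)} (hi : y i ≠ 0) (hA : Effective y A)
    (hAP : ∀ P l, IsPrimeDivisor y P → Centred y l P → A P = P.ord (y i / y l)) :
    ∃ s : ℕ, ∀ m b : ℕ, ∃ h : K, Dom n (VF y (m • D + b • A)) (VH y) 1 (m * s + b) h := by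
  obtain ⟨F, s, hF, hFs⟩ := exists_bd hy hD hi hA hAP
  refine ⟨s, fun m b => ⟨(F ^ m * y i ^ (m * s + b))⁻¹, inv_ne_zero (mul_ne_zero
    (pow_ne_zero _ hF) (pow_ne_zero _ hi)), fun Q hQ f hf hf0 => ?_⟩⟩
  obtain ⟨l, hl⟩ := exists_centred hy Q
  have h1 := sec_bd hy hi hAP hF hFs hf hf0 hl
  refine ⟨y l, Submodule.subset_span ⟨l, rfl⟩, hl.1, ?_⟩
  rw [Q.ord_div hi hl.1] at h1
  rw [Q.ord_inv, Q.ord_mul (pow_ne_zero _ hF) (pow_ne_zero _ hi), Q.ord_pow, Q.ord_pow]
  push_cast at h1 ⊢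
  linarith

/-- the sections are a finite dimensional space -/
theorem VF_fg (hy : NormalModel y) (hn : Algebra.trdeg ℂ K = n) {D A : Place ℂ K → ℚ}
    (hD : IsDivisor y D) {i : Fin (N + 1)} (hi : y i ≠ 0) (hA : Effective y A)
    (hAP : ∀ P l, IsPrimeDivisor y P → Centred y l P → A P = P.ord (y i / y l)) (m b : ℕ) :
    (VF y (m • D + b • A)).FG := by
  classical
  have hess := hy.ess
  obtain ⟨F, s, hF, hFs⟩ := exists_bd hy hD hi hA hAP
  obtain ⟨Z, -, hZ, -⟩ := exists_crd hn (k := ℂ) (K := K)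
  obtain ⟨C, hC⟩ := growth hZ (fd_basis hZ) (insert F⁻¹ (Finset.univ.image fun k => y k / y i))
    (fun _ => {f | f ∈ VF y (m • D + b • A)}) (fun P => by
      obtain ⟨l, hl⟩ := exists_centred hy P
      refine ⟨((m : ℤ) * P.ord F + ((m * s + b : ℕ) : ℤ) * P.ord (y i / y l)).toNat,
        fun k hk f hf => ?_⟩
      by_cases hf0 : f = 0
      · exact Or.inl hf0
      right
      have h1 := sec_bd hy hi hAP hF hFs hf hf0 hl
      refine le_trans ?_ h1
      have h2 := Int.self_le_toNat ((m : ℤ) * P.ord F + ((m * s + b : ℕ) : ℤ) * P.ord (y i / y l))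
      obtain ⟨T, hT⟩ : ∃ T : ℕ,
        T = ((m : ℤ) * P.ord F + ((m * s + b : ℕ) : ℤ) * P.ord (y i / y l)).toNat := ⟨_, rfl⟩
      rw [← hT] at h2 ⊢
      have h3 : (T : ℤ) ≤ ((T * k : ℕ) : ℤ) := by
        exact_mod_cast Nat.le_mul_of_pos_right T hk
      omega) (fun P hP k hk f hf => by
      have hc : Centred y i P := ⟨hi, fun j => hP _ (Finset.mem_insert_of_mem
        (Finset.mem_image_of_mem _ (Finset.mem_univ j)))⟩
      have h3 := (P.reg_iff (inv_ne_zero hF)).1 (hP _ (Finset.mem_insert_self _ _))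
      rw [P.ord_inv] at h3
      by_cases hf0 : f = 0
      · rw [hf0]
        exact P.reg_zero
      refine (P.reg_iff hf0).2 ?_
      have h1 := sec_bd hy hi hAP hF hFs hf hf0 hc
      rw [div_self hi, P.ord_one, mul_zero, add_zero] at h1
      have h4 := mul_nonneg (show (0 : ℤ) ≤ m from Int.natCast_nonneg _) h3
      nlinarith)
  exact fg_of_bound (R := C * 1 ^ n) fun r f hf hfV => hC 1 le_rfl r f hf hfV

end

end Pool.Agent.T2H06.DYL
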